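import Pool.Agent.Helper20.ZD.Main
import Mathlib.Analysis.Complex.Cardinality

/-! # Generic points of curves -/

open MvPolynomial Cardinal

namespace Pool.Agent.Helper22.DL
open Pool.Agent.Helper11.ZP Pool.Agent.Helper11.ZU Pool.Agent.Helper20.ZD

variable {n : ℕ}

/-- **generic points**: a point of the curve with transcendental coordinates at which no polynomial over
`ℤ` vanishes, unless it vanishes on the curve -/
theorem exists_generic {Z : Set (Fin n → ℂ)} (hZ : IsSubvariety Z) (h1 : dim Z = 1)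
    (hc : ∀ (i : Fin n) (c : ℂ), ∃ z ∈ Z, z i ≠ c) (k₀ : Fin n) :
    ∃ zs ∈ Z, (∀ k, Transcendental ℤ (zs k)) ∧
      ∀ G : MvPolynomial (Fin n) ℤ, aeval zs G = 0 → ∀ z ∈ Z, aeval z G = 0 := by
  classical
  -- the bad points
  set B1 : Set (Fin n → ℂ) := ⋃ G : MvPolynomial (Fin n) ℤ,
    {z | z ∈ Z ∧ aeval z G = 0 ∧ ∃ y ∈ Z, aeval y G ≠ 0} with hB1
  set B2 : Set (Fin n → ℂ) := ⋃ k : Fin n, ⋃ c ∈ {x : ℂ | IsAlgebraic ℤ x}, {z | z ∈ Z ∧ z k = c}
    with hB2
  have hmap : ∀ (G : MvPolynomial (Fin n) ℤ) (z : Fin n → ℂ),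
      aeval z G = eval z (map (Int.castRingHom ℂ) G) := fun G z => by
    rw [eval_map, aeval_def]
    rfl
  have hcount : Countable (MvPolynomial (Fin n) ℤ) := Cardinal.mk_le_aleph0_iff.1
    ((MvPolynomial.cardinalMk_le_max (σ := Fin n) (R := ℤ)).trans (by simp))
  have c1 : B1.Countable := by
    refine Set.countable_iUnion fun G => ?_
    by_cases hG : ∃ y ∈ Z, aeval y G ≠ 0
    · refine Set.Finite.countable ((finite_section hZ h1.le (f := map (Int.castRingHom ℂ) G) ?_).subset ?_)
      · rw [mem_van]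
        intro h
        obtain ⟨y, hy, hy2⟩ := hG
        exact hy2 (by rw [hmap]; exact h y hy)
      · rintro z ⟨h2, h3, -⟩
        exact ⟨h2, by rw [hmap] at h3; exact h3⟩
    · have : {z | z ∈ Z ∧ aeval z G = 0 ∧ ∃ y ∈ Z, aeval y G ≠ 0} = ∅ := by
        ext z
        simp only [Set.mem_ofPred_eq, Set.mem_empty_iff_false, iff_false]
        exact fun h => hG h.2.2
      rw [this]
      exact Set.countable_empty
  have c2 : B2.Countable := by
    refine Set.countable_iUnion fun k => Set.Countable.biUnion (Algebraic.countable ℤ ℂ) fun c _ => ?_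
    refine Set.Finite.countable ((finite_section hZ h1.le (f := X k - C c) ?_).subset ?_)
    · rw [mem_van]
      intro h
      obtain ⟨y, hy, hy2⟩ := hc k c
      have := h y hy
      rw [map_sub, eval_X, eval_C, sub_eq_zero] at this
      exact hy2 this
    · rintro z ⟨h2, h3⟩
      refine ⟨h2, ?_⟩
      change eval z (X k - C c) = 0
      rw [map_sub, eval_X, eval_C, h3, sub_self]
  -- a good point
  have hD : ((fun z : Fin n → ℂ => z k₀) '' (B1 ∪ B2))ᶜ.Infinite := by
    intro hfin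
    have h2 := ((c1.union c2).image fun z : Fin n → ℂ => z k₀).union hfin.countable
    rw [Set.union_compl_self] at h2
    exact not_countable_complex h2
  obtain ⟨zs, hzs, hzD⟩ := exists_spec_coord hZ hD (i := k₀)
    (fun f hf hf2 => transc_of_nonconst hZ (hc k₀) hf hf2)
  have hB : zs ∉ B1 ∪ B2 := fun h => hzD ⟨zs, h, rfl⟩
  rw [Set.mem_union, not_or] at hB
  refine ⟨zs, hzs, fun k halg => hB.2 ?_, fun G hG z hz => ?_⟩
  · rw [hB2, Set.mem_iUnion]
    refine ⟨k, ?_⟩
    rw [Set.mem_iUnion₂]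
    exact ⟨zs k, halg, hzs, rfl⟩
  · by_contra hne
    apply hB.1
    rw [hB1, Set.mem_iUnion]
    exact ⟨G, hzs, hG, z, hz, hne⟩

end Pool.Agent.Helper22.DL
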