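import Pool.Agent.Helper69.DL.Defs

/-! # Laurent monomials -/

open MvPolynomial Finset

namespace Pool.Agent.Helper22.DL
open Pool.Agent.Helper20.DL Pool.Agent.Helper69.DL

variable {n : ℕ}

/-- the exponents of the denominators -/
def den (D : ℕ) (a b : Fin n → ℤ) (i : Fin n) : ℕ := D * ((-a i).toNat + (-b i).toNat)

lemma den_nonneg {D : ℕ} {a b : Fin n → ℤ} {i : Fin n} {k l : ℕ} (hk : k ≤ D) (hl : l ≤ D) :
    0 ≤ a i * k + b i * l + den D a b i := by
  have h1 : ∀ (x : ℤ) (k : ℕ), k ≤ D → 0 ≤ x * k + D * ((-x).toNat : ℤ) := by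
    intro x k hk
    rcases le_total 0 x with h | h
    · positivity
    · rw [Int.toNat_of_nonneg (by linarith)]
      have : (k : ℤ) ≤ D := by exact_mod_cast hk
      nlinarith
  have h2 := h1 (a i) k hk
  have h3 := h1 (b i) l hl
  unfold den
  push_cast
  nlinarith

/-- the numerator of `H (z ^ a, z ^ b)` -/
noncomputable def numer (H : MvPolynomial (Fin 2) ℤ) (a b : Fin n → ℤ) : MvPolynomial (Fin n) ℤ :=
  ∑ m ∈ H.support, C (H.coeff m) *
    ∏ i, X i ^ (a i * m 0 + b i * m 1 + den H.totalDegree a b i).toNat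

lemma aeval_numer (H : MvPolynomial (Fin 2) ℤ) (a b : Fin n → ℤ) {z : Fin n → ℂ}
    (hz : ∀ i, z i = 0 → 0 ≤ a i ∧ 0 ≤ b i) :
    aeval z (numer H a b) = (∏ i, z i ^ den H.totalDegree a b i) *
      ev H (∏ i, z i ^ a i) (∏ i, z i ^ b i) := by
  classical
  unfold numer ev
  rw [map_sum, mul_sum]
  refine sum_congr rfl fun m hm => ?_
  have hd : ∀ i, m i ≤ H.totalDegree := fun i => by
    refine le_trans ?_ (le_totalDegree hm)
    rw [Finsupp.sum]
    by_cases h : i ∈ m.support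
    · exact single_le_sum (f := fun i => m i) (fun _ _ => Nat.zero_le _) h
    · rw [Finsupp.notMem_support_iff.1 h]
      exact Nat.zero_le _
  rw [map_mul, map_prod, algHom_C]
  have e : ∀ i, aeval z ((X i : MvPolynomial (Fin n) ℤ) ^
      (a i * m 0 + b i * m 1 + den H.totalDegree a b i).toNat) =
      z i ^ den H.totalDegree a b i * ((z i ^ a i) ^ m 0 * (z i ^ b i) ^ m 1) := by
    intro i
    rw [map_pow, aeval_X]
    have h1 := den_nonneg (a := a) (b := b) (i := i) (hd 0) (hd 1)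
    by_cases h0 : z i = 0
    · obtain ⟨ha, hb⟩ := hz i h0
      have hden : den H.totalDegree a b i = 0 := by
        unfold den
        rw [Int.toNat_of_nonpos (by linarith), Int.toNat_of_nonpos (by linarith)]
        simp
      obtain ⟨a', ha'⟩ := Int.eq_ofNat_of_zero_le ha
      obtain ⟨b', hb'⟩ := Int.eq_ofNat_of_zero_le hb
      rw [hden, ha', hb']
      have e2 : ((a' : ℤ) * (m 0 : ℤ) + (b' : ℤ) * (m 1 : ℤ) + ((0 : ℕ) : ℤ)).toNat = a' * m 0 + b' * m 1 := by
        rw [show ((a' : ℤ) * (m 0 : ℤ) + (b' : ℤ) * (m 1 : ℤ) + ((0 : ℕ) : ℤ)) =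
          ((a' * m 0 + b' * m 1 : ℕ) : ℤ) by push_cast; ring, Int.toNat_natCast]
      rw [e2, pow_zero, one_mul, zpow_natCast, zpow_natCast, pow_add, pow_mul, pow_mul]
    · have e2 : z i ^ (a i * m 0 + b i * m 1 + den H.totalDegree a b i).toNat =
          z i ^ (a i * m 0 + b i * m 1 + (den H.totalDegree a b i : ℤ)) := by
        rw [← zpow_natCast, Int.toNat_of_nonneg h1]
      rw [e2, zpow_add₀ h0, zpow_add₀ h0, zpow_mul, zpow_mul, zpow_natCast, zpow_natCast, zpow_natCast]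
      ring
  rw [prod_congr rfl fun i _ => e i, prod_mul_distrib, prod_mul_distrib, prod_pow, prod_pow]
  have e3 : (algebraMap ℤ ℂ) (H.coeff m) = ((H.coeff m : ℤ) : ℂ) := rfl
  rw [e3]
  ring

/-- **Holds** from a generic point -/
theorem holds_of_generic {Z : Set (Fin n → ℂ)} {zs : Fin n → ℂ} (hz0 : ∀ i, zs i ≠ 0)
    (hgen : ∀ G : MvPolynomial (Fin n) ℤ, aeval zs G = 0 → ∀ z ∈ Z, aeval z G = 0)
    {H : MvPolynomial (Fin 2) ℤ} {a b : Fin n → ℤ}
    (h : ev H (∏ i, zs i ^ a i) (∏ i, zs i ^ b i) = 0) : Holds H Z a b := by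
  intro z hz hz2
  have h1 := hgen (numer H a b) (by
    rw [aeval_numer H a b (fun i hi => absurd hi (hz0 i)), h, mul_zero]) z hz
  rw [aeval_numer H a b hz2] at h1
  refine (mul_eq_zero.1 h1).resolve_left ?_
  rw [← ne_eq, prod_ne_zero_iff]
  intro i _
  by_cases h0 : z i = 0
  · obtain ⟨ha, hb⟩ := hz2 i h0
    have hden : den H.totalDegree a b i = 0 := by
      unfold den
      rw [Int.toNat_of_nonpos (by linarith), Int.toNat_of_nonpos (by linarith)]
      simp
    rw [hden, pow_zero]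
    exact one_ne_zero
  · exact pow_ne_zero _ h0

end Pool.Agent.Helper22.DL
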