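import Pool.Agent.Helper22.DL.CaseA
import Pool.Agent.Helper36.DL.Final

/-! # Dilates: cases A and B -/

open MvPolynomial Finset

namespace Pool.Agent.Helper22.DL
open Pool.Agent.Helper11.ZP Pool.Agent.Helper11.ZU Pool.Agent.Helper20.ZD Pool.Agent.Helper11.LC
  Pool.Agent.Helper69.DL Pool.Agent.Helper36.DL Pool.Agent.Helper20.DL

variable {n : ℕ} {v : AbsoluteValue ℂ ℝ}

lemma not_isog_zero {x y : ℂ} : ¬ CyclicIsog 0 x y := by
  rintro ⟨τ, τ', h, -⟩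
  have h1 := τ'.im_pos
  have h2 : (τ' : ℂ).im = 0 := by rw [h]; simp
  rw [UpperHalfPlane.coe_im] at h2
  rw [h2] at h1
  exact lt_irrefl _ h1

/-- **case A** -/
theorem caseA_of_corners (hv : IsNonarchimedean v) {Z : Set (Fin n → ℂ)} {lam : Fin n → ℚ}
    (hlam : ∀ i, 1 < v (lam i : ℂ)) (hcor : Corners v 1 (fun i => (lam i : ℂ))
      (dilate (fun i => (lam i : ℂ)) Z)) : CaseA v Z lam := by
  obtain ⟨F, ρ, hρ, hF, h⟩ := discs_of_integral hv hlam hcor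
  obtain ⟨M, hM⟩ := (isogenyBounded_discs hv hρ hF).bounded
  refine ⟨M, fun z hz i k l N hi hk hl hik hil _ hN => ?_⟩
  have hne : ∀ i, (lam i : ℂ) ≠ 0 := fun i => by
    intro h0
    have := hlam i
    rw [h0, map_zero] at this
    exact absurd this (not_lt.2 zero_le_one)
  have hx : (fun i => (lam i : ℂ) * z i) ∈ dilate (fun i => (lam i : ℂ)) Z := by
    change (fun i => (lam i : ℂ) * z i / (lam i : ℂ)) ∈ Z
    have : (fun i => (lam i : ℂ) * z i / (lam i : ℂ)) = z := by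
      funext i
      rw [mul_div_cancel_left₀ _ (hne i)]
    rw [this]
    exact hz
  exact hM _ (h _ hx i k hik hi (by rw [map_mul, hk, mul_one])) _
    (h _ hx i l hil hi (by rw [map_mul, hl, mul_one])) N hN

/-- the relations between monomials in the coordinates -/
def HasRel (Z : Set (Fin n → ℂ)) : Prop :=
  ∀ a b : Fin n → ℤ, (∀ s t : ℤ, (∀ i, s * a i + t * b i = 0) → s = 0 ∧ t = 0) →
    ∃ (H : MvPolynomial (Fin 2) ℤ) (M : ℕ), 0 < M ∧ Holds H Z a b ∧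
      ∀ p : ℕ, p.Prime → ¬ p ∣ M → ∀ v : AbsoluteValue ℂ ℝ, IsNonarchimedean v → v (p : ℂ) < 1 →
        GoodRel v p H

/-- torsion points modulo `p ^ 2` -/
def TorsionRel : Prop :=
  ∀ (v : AbsoluteValue ℂ ℝ) (_ : IsNonarchimedean v) (p : ℕ) (_ : p.Prime) (_ : v (p : ℂ) < 1)
    (H : MvPolynomial (Fin 2) ℤ) (_ : GoodRel v p H) (μ₁ μ₂ : ℚ) (_ : v (μ₁ : ℂ) = 1)
    (_ : v (μ₂ : ℂ) = 1),
    ∃ G : ℕ, ∀ (x y ζ₁ ζ₂ : ℂ) (g₁ g₂ : ℕ), 0 < g₁ → 0 < g₂ → IsPrimitiveRoot ζ₁ g₁ →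
      IsPrimitiveRoot ζ₂ g₂ → v (x - μ₁ * ζ₁) ≤ v (p : ℂ) ^ 2 → v (y - μ₂ * ζ₂) ≤ v (p : ℂ) ^ 2 →
      ev H x y = 0 → g₁ ≤ G ∧ g₂ ≤ G

/-- the exponent vector of `z_i / z_j` -/
def diff (i j : Fin n) : Fin n → ℤ := fun t => (if t = i then 1 else 0) - if t = j then 1 else 0

lemma prod_diff {i j : Fin n} (z : Fin n → ℂ) (hi : z i ≠ 0) (hj : z j ≠ 0) :
    ∏ t, z t ^ diff i j t = z i / z j := by
  classical
  have h : ∀ t, z t ^ diff i j t = z t ^ (if t = i then (1 : ℤ) else 0) *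
      (z t ^ (if t = j then (1 : ℤ) else 0))⁻¹ := by
    intro t
    unfold diff
    by_cases h0 : z t = 0
    · have h1 : t ≠ i := fun h => hi (h ▸ h0)
      have h2 : t ≠ j := fun h => hj (h ▸ h0)
      simp [h1, h2]
    · rw [zpow_sub₀ h0, div_eq_mul_inv]
  rw [prod_congr rfl fun t _ => h t, prod_mul_distrib, prod_inv_distrib, div_eq_mul_inv]
  have h1 : ∀ k, (∏ t, z t ^ (if t = k then (1 : ℤ) else 0)) = z k := by
    intro k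
    rw [Finset.prod_eq_single k]
    · simp
    · intro t _ ht
      simp [ht]
    · simp
  rw [h1, h1]

lemma diff_indep {i j k l : Fin n} (hij : i ≠ j) (hkl : k ≠ l) (hli : l ≠ i) (hlj : l ≠ j) (s t : ℤ)
    (h : ∀ q, s * diff i j q + t * diff k l q = 0) : s = 0 ∧ t = 0 := by
  have h1 := h l
  simp [diff, hli, hlj, hkl.symm] at h1
  subst h1
  have h2 := h i
  simp [diff, hij] at h2
  exact ⟨h2, rfl⟩

/-- one pair of isogenous coordinates -/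
lemma ratio_near (hv : IsNonarchimedean v) {c : ℝ} {lam : Fin n → ℚ} (hc0 : 0 < c) (hc : c < 1)
    (hlam : ∀ i, v (lam i : ℂ) * c = 1) {z : Fin n → ℂ} {i j : Fin n} (hi : v (z i) = 1)
    (hj : v (z j) = 1) {N : ℕ} (h : CyclicIsog N (lam i * z i) (lam j * z j)) :
    ∃ (g : ℕ) (ζ : ℂ), 0 < g ∧ N = g ^ 2 ∧ IsPrimitiveRoot ζ g ∧
      v (z i / z j - ((lam j / lam i : ℚ) : ℂ) * ζ) ≤ c := by
  have hN : 0 < N := Nat.pos_of_ne_zero fun h0 => not_isog_zero (h0 ▸ h)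
  have hl : ∀ i, v (lam i : ℂ) = c⁻¹ := fun i => eq_inv_of_mul_eq_one_left (hlam i)
  have hl0 : ∀ i, (lam i : ℂ) ≠ 0 := fun i h0 => by
    have := hlam i
    rw [h0, map_zero, zero_mul] at this
    exact zero_ne_one this
  have hj0 : z j ≠ 0 := fun h0 => by
    rw [h0, map_zero] at hj
    exact zero_ne_one hj
  obtain ⟨g, ζ, hg, hNg, hζ, hd⟩ := pair_square hv (x := lam i * z i) (y := lam j * z j)
    (by rw [map_mul, hi, mul_one, hl]; exact (one_lt_inv₀ hc0).2 hc)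
    (by rw [map_mul, map_mul, hi, hj, hl, hl]) hN h
  refine ⟨g, ζ, hg, hNg, hζ, ?_⟩
  have h1 : z i / z j - ((lam j / lam i : ℚ) : ℂ) * ζ =
      -(((lam j / lam i : ℚ) : ℂ) * (ζ - lam i * z i / (lam j * z j))) := by
    push_cast
    have := hl0 i
    have := hl0 j
    field_simp
    ring
  have h2 : v (((lam j / lam i : ℚ) : ℂ)) = 1 := by
    push_cast
    rw [map_div₀, hl, hl, div_self (inv_ne_zero hc0.ne')]
  rw [h1, v_neg, map_mul, h2, one_mul]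
  rw [map_mul, hi, mul_one, hl, inv_inv] at hd
  exact hd

/-- **case B** for one quadruple of indices -/
lemma caseB_one (hT : TorsionRel) (hv : IsNonarchimedean v) {p : ℕ} (hp : p.Prime)
    (hvp : v (p : ℂ) < 1) {m : ℕ} (hm : 2 ≤ m) {lam : Fin n → ℚ}
    (hlam : ∀ i, v (lam i : ℂ) * v (p : ℂ) ^ m = 1) {Z : Set (Fin n → ℂ)} {i j k l : Fin n}
    {H : MvPolynomial (Fin 2) ℤ} (hH : Holds H Z (diff i j) (diff k l)) (hg : GoodRel v p H) :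
    ∃ B : ℕ, ∀ z ∈ Z, ∀ (N N' : ℕ), v (z i) = 1 → v (z j) = 1 → v (z k) = 1 → v (z l) = 1 →
      CyclicIsog N (lam i * z i) (lam j * z j) → CyclicIsog N' (lam k * z k) (lam l * z l) → N' ≤ B := by
  have hp0 : 0 < v (p : ℂ) := AbsoluteValue.pos_iff v |>.2 (by exact_mod_cast hp.ne_zero)
  have hc0 : 0 < v (p : ℂ) ^ m := pow_pos hp0 m
  have hc : v (p : ℂ) ^ m < 1 := pow_lt_one₀ hp0.le hvp (by omega)
  have hc2 : v (p : ℂ) ^ m ≤ v (p : ℂ) ^ 2 := pow_le_pow_of_le_one hp0.le hvp.le hm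
  have hl : ∀ i, v (lam i : ℂ) = (v (p : ℂ) ^ m)⁻¹ := fun i => eq_inv_of_mul_eq_one_left (hlam i)
  have hμ : ∀ i j, v (((lam j / lam i : ℚ) : ℂ)) = 1 := fun i j => by
    push_cast
    rw [map_div₀, hl, hl, div_self (inv_ne_zero hc0.ne')]
  obtain ⟨G, hG⟩ := hT v hv p hp hvp H hg (lam j / lam i) (lam l / lam k) (hμ i j) (hμ k l)
  refine ⟨G ^ 2, fun z hz N N' hi hj hk hl' h1 h2 => ?_⟩
  have hz0 : ∀ {q}, v (z q) = 1 → z q ≠ 0 := fun {q} hq h0 => by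
    rw [h0, map_zero] at hq
    exact zero_ne_one hq
  obtain ⟨g₁, ζ₁, a1, a2, a3, a4⟩ := ratio_near hv hc0 hc hlam hi hj h1
  obtain ⟨g₂, ζ₂, b1, b2, b3, b4⟩ := ratio_near hv hc0 hc hlam hk hl' h2
  have h3 := hH z hz (fun q hq => by
    have hne : ∀ {r}, v (z r) = 1 → q ≠ r := fun {r} hr h => hz0 hr (h ▸ hq)
    unfold diff
    simp [hne hi, hne hj, hne hk, hne hl'])
  rw [prod_diff z (hz0 hi) (hz0 hj), prod_diff z (hz0 hk) (hz0 hl')] at h3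
  obtain ⟨-, h5⟩ := hG _ _ ζ₁ ζ₂ g₁ g₂ a1 b1 a3 b3 (a4.trans hc2) (b4.trans hc2) h3
  rw [b2]
  exact Nat.pow_le_pow_left h5 2

/-- **cases A and B** -/
theorem exists_caseAB (hT : TorsionRel) {Z : Set (Fin n → ℂ)} (hcor : CornerPos 1 Z)
    (hrel : HasRel Z) : ∃ M : ℕ, 0 < M ∧ ∀ p : ℕ, p.Prime → ¬ p ∣ M → ∀ v : AbsoluteValue ℂ ℝ,
      IsNonarchimedean v → v (p : ℂ) < 1 → ∀ m : ℕ, 2 ≤ m → ∀ lam : Fin n → ℚ,
        (∀ i, v (lam i : ℂ) * v (p : ℂ) ^ m = 1) → CaseA v Z lam ∧ CaseB v Z lam := by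
  classical
  obtain ⟨M₀, hM₀, h0⟩ := corners_dilate hcor
  let ι := Fin n × Fin n × Fin n × Fin n
  have h1 : ∀ q : ι, ∃ (H : MvPolynomial (Fin 2) ℤ) (M : ℕ), 0 < M ∧
      (q.1 ≠ q.2.1 → q.2.2.1 ≠ q.2.2.2 → q.2.2.2 ≠ q.1 → q.2.2.2 ≠ q.2.1 →
        Holds H Z (diff q.1 q.2.1) (diff q.2.2.1 q.2.2.2) ∧
        ∀ p : ℕ, p.Prime → ¬ p ∣ M → ∀ v : AbsoluteValue ℂ ℝ, IsNonarchimedean v → v (p : ℂ) < 1 →
          GoodRel v p H) := by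
    rintro ⟨i, j, k, l⟩
    by_cases h : i ≠ j ∧ k ≠ l ∧ l ≠ i ∧ l ≠ j
    · obtain ⟨H, M, h2, h3, h4⟩ := hrel (diff i j) (diff k l) (diff_indep h.1 h.2.1 h.2.2.1 h.2.2.2)
      exact ⟨H, M, h2, fun _ _ _ _ => ⟨h3, h4⟩⟩
    · exact ⟨0, 1, one_pos, fun a b c d => absurd ⟨a, b, c, d⟩ h⟩
  choose H M hM h1 using h1
  refine ⟨M₀ * ∏ q, M q, Nat.mul_pos hM₀ (prod_pos fun q _ => hM q), fun p hp hpM v hv hvp m hm lam
    hlam => ?_⟩
  have hp0 : 0 < v (p : ℂ) := AbsoluteValue.pos_iff v |>.2 (by exact_mod_cast hp.ne_zero)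
  have hc0 : 0 < v (p : ℂ) ^ m := pow_pos hp0 m
  have hc : v (p : ℂ) ^ m < 1 := pow_lt_one₀ hp0.le hvp (by omega)
  have hl : ∀ i, 1 < v (lam i : ℂ) := fun i => by
    rw [eq_inv_of_mul_eq_one_left (hlam i)]
    exact (one_lt_inv₀ hc0).2 hc
  have hpM₀ : ¬ p ∣ M₀ := fun h => hpM (h.mul_right _)
  have hpM' : ∀ q, ¬ p ∣ M q := fun q h => hpM ((h.trans (dvd_prod_of_mem M (mem_univ q))).mul_left _)
  constructor
  · exact caseA_of_corners hv hl (h0 v hv (v_nat_eq_one hv hp hvp hpM₀) _)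
  · have h2 : ∀ q : ι, ∃ B : ℕ, q.1 ≠ q.2.1 → q.2.2.1 ≠ q.2.2.2 → q.2.2.2 ≠ q.1 → q.2.2.2 ≠ q.2.1 →
        ∀ z ∈ Z, ∀ (N N' : ℕ), v (z q.1) = 1 → v (z q.2.1) = 1 → v (z q.2.2.1) = 1 →
          v (z q.2.2.2) = 1 → CyclicIsog N (lam q.1 * z q.1) (lam q.2.1 * z q.2.1) →
            CyclicIsog N' (lam q.2.2.1 * z q.2.2.1) (lam q.2.2.2 * z q.2.2.2) → N' ≤ B := by
      intro q
      by_cases h : q.1 ≠ q.2.1 ∧ q.2.2.1 ≠ q.2.2.2 ∧ q.2.2.2 ≠ q.1 ∧ q.2.2.2 ≠ q.2.1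
      · obtain ⟨h3, h4⟩ := h1 q h.1 h.2.1 h.2.2.1 h.2.2.2
        obtain ⟨B, hB⟩ := caseB_one hT hv hp hvp hm hlam h3 (h4 p hp (hpM' q) v hv hvp)
        exact ⟨B, fun _ _ _ _ => hB⟩
      · exact ⟨0, fun a b c d => absurd ⟨a, b, c, d⟩ h⟩
    choose B hB using h2
    refine ⟨univ.sup B, fun z hz i j k l N N' hi hj hk hl' hij hkl hli hlj hN hN' => ?_⟩
    exact (hB (i, j, k, l) hij hkl hli hlj z hz N N' hi hj hk hl' hN hN').trans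
      (Finset.le_sup (mem_univ (i, j, k, l)))

end Pool.Agent.Helper22.DL
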