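import Pool.Agent.Helper22.DL.Sharp
import Pool.Agent.Helper36.DL.Affine

/-! # Affine images: cases A and B -/

open MvPolynomial Finset

namespace Pool.Agent.Helper22.DL
open Pool.Agent.Helper11.ZP Pool.Agent.Helper11.ZU Pool.Agent.Helper20.ZD Pool.Agent.Helper11.LC
  Pool.Agent.Helper69.DL Pool.Agent.Helper36.DL Pool.Agent.Helper20.DL

variable {n : ℕ} {v : AbsoluteValue ℂ ℝ}

/-- the absolute values of the coefficients of the affine maps -/
lemma v_lam {c : ℝ} {l : ℚ} (hl : v (l : ℂ) * c = 1) : v (l : ℂ) = c⁻¹ :=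
  eq_inv_of_mul_eq_one_left hl

lemma lam_ne {c : ℝ} {l : ℚ} (hl : v (l : ℂ) * c = 1) : (l : ℂ) ≠ 0 := fun h0 => by
  rw [h0, map_zero, zero_mul] at hl
  exact zero_ne_one hl

/-- **case A** for affine images -/
theorem affA_of_corners (hv : IsNonarchimedean v) {Z : Set (Fin n → ℂ)} {lam a : Fin n → ℚ} {c q : ℝ}
    (hc0 : 0 < c) (hcq : c ≤ q) (hq : q < 1) (hlam : ∀ i, v (lam i : ℂ) * c = 1)
    (ha : ∀ i, v (a i : ℂ) * c ≤ q) (hcor : Corners v 1 (fun i => (lam i : ℂ))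
      (dilate (fun i => (lam i : ℂ)) Z)) : AffA v Z lam a := by
  classical
  have hl : ∀ i, v (lam i : ℂ) = c⁻¹ := fun i => v_lam (hlam i)
  have hl0 : ∀ i, (lam i : ℂ) ≠ 0 := fun i => lam_ne (hlam i)
  have hq0 : 0 ≤ q := hc0.le.trans hcq
  have hc1 : c < 1 := hcq.trans_lt hq
  have hci : 1 < c⁻¹ := (one_lt_inv₀ hc0).2 hc1
  have ha' : ∀ i, v (a i : ℂ) ≤ q * c⁻¹ := fun i => by
    rw [← div_eq_mul_inv, le_div_iff₀ hc0]
    exact ha i
  have hmem : ∀ z ∈ Z, (fun i => (lam i : ℂ) * z i) ∈ dilate (fun i => (lam i : ℂ)) Z := by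
    intro z hz
    change (fun i => (lam i : ℂ) * z i / (lam i : ℂ)) ∈ Z
    have : (fun i => (lam i : ℂ) * z i / (lam i : ℂ)) = z := by
      funext i
      rw [mul_div_cancel_left₀ _ (hl0 i)]
    rw [this]
    exact hz
  -- one pair
  have h1 : ∀ i k : Fin n, ∃ (Y : Finset ℂ) (ρ : ℝ), 0 ≤ ρ ∧ ρ < 1 ∧ (∀ c ∈ Y, v c = 1) ∧ (i ≠ k →
      ∀ z ∈ Z, v (z i) ≤ q → v (z k) = 1 → ∃ c ∈ Y, v (z k - c) ≤ ρ) := by
    intro i k
    by_cases hik : i = k
    · exact ⟨∅, 0, le_rfl, one_pos, by simp, fun h => absurd hik h⟩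
    · obtain ⟨f, hf, hfV⟩ := hcor {i, k} (by rw [card_pair hik])
      obtain ⟨Y, ρ, a1, b1, c1, d1⟩ := near_of_corners hv hik hf hq0 hq
      refine ⟨Y, ρ, a1, b1, c1, fun _ z hz hzi hzk => d1 z ?_ hzi hzk⟩
      have h2 := hfV _ (hmem z hz)
      have h3 : (fun i => (lam i : ℂ) * z i / (lam i : ℂ)) = z := by
        funext i
        rw [mul_div_cancel_left₀ _ (hl0 i)]
      simpa only [h3] using h2
  choose Y ρ hρ0 hρ1 hY hd using h1
  rcases isEmpty_or_nonempty (Fin n) with hn | hn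
  · exact ⟨0, fun z _ i => isEmptyElim i⟩
  obtain ⟨r, -, hr⟩ := exists_max_image (univ : Finset (Fin n × Fin n)) (fun r => ρ r.1 r.2)
    ⟨(Classical.arbitrary _, Classical.arbitrary _), mem_univ _⟩
  set F : Finset ℂ := (univ : Finset (Fin n × Fin n)).biUnion fun q => (Y q.1 q.2).image fun c => lam q.2 * c
    with hF
  set ρ' := max (ρ r.1 r.2) q with hρ'
  have hF1 : ∀ c ∈ F, 1 < v c := by
    intro c' hc
    rw [hF, mem_biUnion] at hc
    obtain ⟨q', -, hc⟩ := hc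
    obtain ⟨c'', hc'', rfl⟩ := mem_image.1 hc
    rw [map_mul, hY _ _ c'' hc'', mul_one, hl]
    exact hci
  obtain ⟨M, hM⟩ := (isogenyBounded_discs hv (max_lt (hρ1 r.1 r.2) hq) hF1).bounded
  have key : ∀ z ∈ Z, ∀ i k, i ≠ k → v (lam i * z i + a i) ≤ 1 → v (z k) = 1 →
      lam k * z k + a k ∈ discs v F ρ' := by
    intro z hz i k hik hi hk
    have hzi : v (z i) ≤ q := by
      have h2 : (lam i : ℂ) * z i = (lam i * z i + a i) - a i := by ring
      have h3 : v ((lam i : ℂ) * z i) ≤ q * c⁻¹ := by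
        rw [h2]
        refine (v_sub_le hv _ _).trans (max_le (hi.trans ?_) (ha' i))
        rw [← div_eq_mul_inv, le_div_iff₀ hc0, one_mul]
        exact hcq
      rw [map_mul, hl, mul_comm q] at h3
      exact le_of_mul_le_mul_left h3 (inv_pos.2 hc0)
    obtain ⟨c', hc', h4⟩ := hd i k hik z hz hzi hk
    refine ⟨lam k * c', mem_biUnion.2 ⟨(i, k), mem_univ _, mem_image.2 ⟨c', hc', rfl⟩⟩, ?_⟩
    have h5 : (lam k : ℂ) * z k + a k - lam k * c' = lam k * (z k - c') + a k := by ring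
    rw [h5, map_mul v (lam k : ℂ) c', hY _ _ c' hc', mul_one, hl]
    refine (hv _ _).trans (max_le ?_ ((ha' k).trans ?_))
    · rw [map_mul, hl, mul_comm]
      exact mul_le_mul_of_nonneg_right ((h4.trans (hr (i, k) (mem_univ _))).trans (le_max_left _ _))
        (inv_nonneg.2 hc0.le)
    · exact mul_le_mul_of_nonneg_right (le_max_right _ _) (inv_nonneg.2 hc0.le)
  exact ⟨M, fun z hz i k l N hi hk hl' hik hil _ hN =>
    hM _ (key z hz i k hik hi hk) _ (key z hz i l hil hi hl') N hN⟩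

/-- torsion points modulo `p` with a first order term -/
def TorsionRel2 : Prop :=
  ∀ (v : AbsoluteValue ℂ ℝ) (_ : IsNonarchimedean v) (p : ℕ) (_ : p.Prime) (_ : v (p : ℂ) < 1)
    (H : MvPolynomial (Fin 2) ℤ) (_ : GoodRel v p H) (G : Fin 4 → MvPolynomial (Fin 2) ℤ)
    (_ : ∀ i, GoodRel v p (G i)) (μ₁ μ₂ : ℚ) (_ : v (μ₁ : ℂ) = 1) (_ : v (μ₂ : ℂ) = 1)
    (c : Fin 4 → ℚ) (_ : ∀ i, v (c i : ℂ) ≤ 1),
    ∃ B : ℕ, ∀ (x y : ℂ) (u : Fin 4 → ℂ) (ζ₁ ζ₂ : ℂ) (g₁ g₂ : ℕ), 0 < g₁ → 0 < g₂ →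
      IsPrimitiveRoot ζ₁ g₁ → IsPrimitiveRoot ζ₂ g₂ → (∀ i, v (u i) = 1) → ev H x y = 0 →
      ev (G 0) (u 0) x = 0 → ev (G 1) (u 1) x = 0 → ev (G 2) (u 2) y = 0 → ev (G 3) (u 3) y = 0 →
      v (x - μ₁ * ζ₁ * (1 + p * (c 0 * u 0 + c 1 * u 1))) < v (p : ℂ) →
      v (y - μ₂ * ζ₂ * (1 + p * (c 2 * u 2 + c 3 * u 3))) < v (p : ℂ) → g₁ ≤ B ∧ g₂ ≤ B

/-- the exponent vector of `1 / z_t` -/
def negv (t : Fin n) : Fin n → ℤ := fun q => if q = t then -1 else 0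

lemma prod_negv (z : Fin n → ℂ) (t : Fin n) : ∏ q, z q ^ negv t q = (z t)⁻¹ := by
  classical
  rw [Finset.prod_eq_single t]
  · simp [negv]
  · intro q _ hq
    simp [negv, hq]
  · simp

lemma negv_indep_left {i j : Fin n} (hij : i ≠ j) (s t : ℤ)
    (h : ∀ q, s * negv i q + t * diff i j q = 0) : s = 0 ∧ t = 0 := by
  have h1 := h j
  simp [negv, diff, hij.symm] at h1
  subst h1
  have h2 := h i
  simp [negv] at h2
  exact ⟨h2, rfl⟩

lemma negv_indep_right {i j : Fin n} (hij : i ≠ j) (s t : ℤ)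
    (h : ∀ q, s * negv j q + t * diff i j q = 0) : s = 0 ∧ t = 0 := by
  have h1 := h i
  simp [negv, diff, hij] at h1
  subst h1
  have h2 := h j
  simp [negv] at h2
  exact ⟨h2, rfl⟩

/-- the constant of the first order term -/
noncomputable def beta (lam a : Fin n → ℚ) (p : ℕ) (t : Fin n) : ℚ := (a t - 744) / (lam t * p)

lemma v_beta (hv : IsNonarchimedean v) {p : ℕ} (hp0 : 0 < v (p : ℂ)) {c : ℝ} (hc0 : 0 < c)
    (hcq : c ≤ v (p : ℂ)) {lam a : Fin n → ℚ} (hlam : ∀ i, v (lam i : ℂ) * c = 1)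
    (ha : ∀ i, v (a i : ℂ) * c ≤ v (p : ℂ)) (t : Fin n) : v (beta lam a p t : ℂ) ≤ 1 := by
  have v744 : v (744 : ℂ) ≤ 1 := by exact_mod_cast v_ofNat_le hv 744
  have h1 : v ((a t : ℂ) - 744) * c ≤ v (p : ℂ) := by
    rcases le_max_iff.1 (v_sub_le hv (a t : ℂ) 744) with h | h
    · exact (mul_le_mul_of_nonneg_right h hc0.le).trans (ha t)
    · refine (mul_le_mul_of_nonneg_right (h.trans v744) hc0.le).trans ?_
      rw [one_mul]
      exact hcq
  unfold beta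
  push_cast
  rw [map_div₀, map_mul, v_lam (hlam t), div_le_one (mul_pos (inv_pos.2 hc0) hp0)]
  rw [mul_comm c⁻¹, ← div_eq_mul_inv, le_div_iff₀ hc0]
  exact h1

/-- one pair of isogenous coordinates, with the first order term -/
lemma ratio_near2 (hv : IsNonarchimedean v) {p : ℕ} (hp0 : 0 < v (p : ℂ)) (hp1 : v (p : ℂ) < 1) {c : ℝ}
    (hc0 : 0 < c) (hcq : c ≤ v (p : ℂ)) {lam a : Fin n → ℚ} (hlam : ∀ i, v (lam i : ℂ) * c = 1)
    (ha : ∀ i, v (a i : ℂ) * c ≤ v (p : ℂ)) {z : Fin n → ℂ} {i j : Fin n} (hi : v (z i) = 1)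
    (hj : v (z j) = 1) {N : ℕ} (h : CyclicIsog N (lam i * z i + a i) (lam j * z j + a j)) :
    ∃ (g : ℕ) (ζ : ℂ), 0 < g ∧ N = g ^ 2 ∧ IsPrimitiveRoot ζ g ∧
      v (z i / z j - ((lam j / lam i : ℚ) : ℂ) * ζ * (1 + p * (((beta lam a p j : ℚ) : ℂ) * (z j)⁻¹ +
        ((-beta lam a p i : ℚ) : ℂ) * (z i)⁻¹))) < v (p : ℂ) := by
  have hN : 0 < N := Nat.pos_of_ne_zero fun h0 => not_isog_zero (h0 ▸ h)
  have hc1 : c < 1 := hcq.trans_lt hp1
  have hci : 1 < c⁻¹ := (one_lt_inv₀ hc0).2 hc1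
  have hl : ∀ i, v (lam i : ℂ) = c⁻¹ := fun i => v_lam (hlam i)
  have hl0 : ∀ i, (lam i : ℂ) ≠ 0 := fun i => lam_ne (hlam i)
  have hz0 : ∀ {r}, v (z r) = 1 → z r ≠ 0 := fun {r} hr h0 => by
    rw [h0, map_zero] at hr
    exact zero_ne_one hr
  have hpC : (p : ℂ) ≠ 0 := (AbsoluteValue.pos_iff v).1 hp0
  have v744 : v (744 : ℂ) ≤ 1 := by exact_mod_cast v_ofNat_le hv 744
  have ha' : ∀ i, v (a i : ℂ) < c⁻¹ := fun i => by
    rw [← one_div, lt_div_iff₀ hc0]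
    exact (ha i).trans_lt hp1
  have hvx : ∀ {r}, v (z r) = 1 → v (lam r * z r + a r) = c⁻¹ := fun {r} hr => by
    have h1 : v ((lam r : ℂ) * z r) = c⁻¹ := by rw [map_mul, hr, mul_one, hl]
    rw [v_add_eq hv (by rw [h1]; exact ha' r), h1]
  obtain ⟨g, ζ, hg, hNg, hζ, hd⟩ := sharp_rigid hv (x := lam i * z i + a i) (y := lam j * z j + a j)
    (by rw [hvx hi]; exact hci) (by rw [hvx hi, hvx hj]) hN h
  refine ⟨g, ζ, hg, hNg, hζ, ?_⟩
  rw [hvx hi, inv_inv] at hd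
  -- the small quantities
  set w : Fin n → ℂ := fun r => (a r - 744) / (lam r * z r) with hw
  have hwv : ∀ {r}, v (z r) = 1 → v (w r) ≤ v (p : ℂ) := fun {r} hr => by
    have h1 : w r = (beta lam a p r : ℂ) * p * (z r)⁻¹ := by
      simp only [hw, beta]
      push_cast
      have := hl0 r
      have := hz0 hr
      field_simp
    rw [h1, map_mul, map_mul, map_inv₀, hr, inv_one, mul_one]
    exact mul_le_of_le_one_left hp0.le (v_beta hv hp0 hc0 hcq hlam ha r)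
  have hx : ∀ {r}, v (z r) = 1 → (lam r * z r + a r - 744 : ℂ) = lam r * z r * (1 + w r) := fun {r} hr => by
    simp only [hw]
    have := hl0 r
    have := hz0 hr
    field_simp
    ring
  have h1w : ∀ {r}, v (z r) = 1 → v (1 + w r) = 1 := fun {r} hr => by
    rw [v_add_eq hv (by rw [map_one]; exact (hwv hr).trans_lt hp1), map_one]
  have h1w0 : ∀ {r}, v (z r) = 1 → 1 + w r ≠ 0 := fun {r} hr => by
    rw [← AbsoluteValue.ne_zero_iff v, h1w hr]
    exact one_ne_zero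
  have hμ : v (((lam j / lam i : ℚ) : ℂ)) = 1 := by
    push_cast
    rw [map_div₀, hl, hl, div_self (inv_ne_zero hc0.ne')]
  have hvζ : v ζ = 1 := by
    have h2 : v ζ ^ g = 1 := by rw [← map_pow, hζ.pow_eq_one, map_one]
    exact (pow_eq_one_iff_of_nonneg (AbsoluteValue.nonneg v _) hg.ne').1 h2
  set ε := (lam i * z i + a i - 744 : ℂ) / (lam j * z j + a j - 744) - ζ with hε
  have hεv : v ε ≤ v (p : ℂ) ^ 2 := hd.trans (pow_le_pow_left₀ hc0.le hcq 2)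
  have e1 : z i / z j = ((lam j / lam i : ℚ) : ℂ) * (ζ + ε) * (1 + w j) / (1 + w i) := by
    rw [hε, hx hi, hx hj]
    push_cast
    have := hl0 i
    have := hl0 j
    have := hz0 hi
    have := hz0 hj
    have := h1w0 hi
    have := h1w0 hj
    field_simp
    ring
  have e2 : (p : ℂ) * (((beta lam a p j : ℚ) : ℂ) * (z j)⁻¹ + ((-beta lam a p i : ℚ) : ℂ) * (z i)⁻¹) =
      w j - w i := by
    simp only [hw, beta]
    push_cast
    have := hl0 i
    have := hl0 j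
    have := hz0 hi
    have := hz0 hj
    field_simp
    ring
  have e3 : z i / z j - ((lam j / lam i : ℚ) : ℂ) * ζ * (1 + (w j - w i)) =
      ((lam j / lam i : ℚ) : ℂ) * ((ε * (1 + w j) + ζ * (w i * (w i - w j))) / (1 + w i)) := by
    rw [e1]
    have := h1w0 hi
    field_simp
    ring
  rw [e2, e3, map_mul, hμ, one_mul, map_div₀, h1w hi, div_one]
  have h2 : v (p : ℂ) ^ 2 < v (p : ℂ) := by
    rw [pow_two]
    exact mul_lt_of_lt_one_left hp0 hp1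
  refine lt_of_le_of_lt ((hv _ _).trans (max_le ?_ ?_)) h2
  · rw [map_mul, h1w hj, mul_one]
    exact hεv
  · rw [map_mul, hvζ, one_mul, map_mul, pow_two]
    exact mul_le_mul (hwv hi) ((v_sub_le hv _ _).trans (max_le (hwv hi) (hwv hj)))
      (AbsoluteValue.nonneg v _) hp0.le

/-- **case B** for affine images and one quadruple of indices -/
lemma affB_one (hT : TorsionRel2) (hv : IsNonarchimedean v) {p : ℕ} (hp : p.Prime)
    (hvp : v (p : ℂ) < 1) {m : ℕ} (hm : 1 ≤ m) {lam a : Fin n → ℚ}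
    (hlam : ∀ i, v (lam i : ℂ) * v (p : ℂ) ^ m = 1) (ha : ∀ i, v (a i : ℂ) * v (p : ℂ) ^ m ≤ v (p : ℂ))
    {Z : Set (Fin n → ℂ)} {i j k l : Fin n}
    {H : MvPolynomial (Fin 2) ℤ} (hH : Holds H Z (diff i j) (diff k l)) (hg : GoodRel v p H)
    {G : Fin 4 → MvPolynomial (Fin 2) ℤ} (hG : ∀ r, GoodRel v p (G r))
    (hG0 : Holds (G 0) Z (negv j) (diff i j)) (hG1 : Holds (G 1) Z (negv i) (diff i j))
    (hG2 : Holds (G 2) Z (negv l) (diff k l)) (hG3 : Holds (G 3) Z (negv k) (diff k l)) :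
    ∃ B : ℕ, ∀ z ∈ Z, ∀ (N N' : ℕ), v (z i) = 1 → v (z j) = 1 → v (z k) = 1 → v (z l) = 1 →
      CyclicIsog N (lam i * z i + a i) (lam j * z j + a j) →
        CyclicIsog N' (lam k * z k + a k) (lam l * z l + a l) → N' ≤ B := by
  have hp0 : 0 < v (p : ℂ) := AbsoluteValue.pos_iff v |>.2 (by exact_mod_cast hp.ne_zero)
  have hc0 : 0 < v (p : ℂ) ^ m := pow_pos hp0 m
  have hcq : v (p : ℂ) ^ m ≤ v (p : ℂ) := by
    have := pow_le_pow_of_le_one hp0.le hvp.le hm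
    rwa [pow_one] at this
  have hl : ∀ i, v (lam i : ℂ) = (v (p : ℂ) ^ m)⁻¹ := fun i => v_lam (hlam i)
  have hμ : ∀ i j, v (((lam j / lam i : ℚ) : ℂ)) = 1 := fun i j => by
    push_cast
    rw [map_div₀, hl, hl, div_self (inv_ne_zero hc0.ne')]
  have hβ : ∀ t, v (beta lam a p t : ℂ) ≤ 1 := v_beta hv hp0 hc0 hcq hlam ha
  have hβ' : ∀ t, v ((-beta lam a p t : ℚ) : ℂ) ≤ 1 := fun t => by
    push_cast
    rw [v_neg]
    exact hβ t
  obtain ⟨B, hB⟩ := hT v hv p hp hvp H hg G hG (lam j / lam i) (lam l / lam k) (hμ i j) (hμ k l)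
    ![beta lam a p j, -beta lam a p i, beta lam a p l, -beta lam a p k] (by
      intro r
      fin_cases r
      · exact hβ j
      · exact hβ' i
      · exact hβ l
      · exact hβ' k)
  refine ⟨B ^ 2, fun z hz N N' hi hj hk hl' h1 h2 => ?_⟩
  have hz0 : ∀ {q}, v (z q) = 1 → z q ≠ 0 := fun {q} hq h0 => by
    rw [h0, map_zero] at hq
    exact zero_ne_one hq
  have hzi : ∀ {q}, v (z q) = 1 → v (z q)⁻¹ = 1 := fun {q} hq => by rw [map_inv₀, hq, inv_one]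
  obtain ⟨g₁, ζ₁, a1, a2, a3, a4⟩ := ratio_near2 hv hp0 hvp hc0 hcq hlam ha hi hj h1
  obtain ⟨g₂, ζ₂, b1, b2, b3, b4⟩ := ratio_near2 hv hp0 hvp hc0 hcq hlam ha hk hl' h2
  have hne : ∀ {q r}, z q = 0 → v (z r) = 1 → q ≠ r := fun {q r} hq hr h => hz0 hr (h ▸ hq)
  have h3 := hH z hz (fun q hq => by
    unfold diff
    simp [hne hq hi, hne hq hj, hne hq hk, hne hq hl'])
  have h4 := hG0 z hz (fun q hq => by
    unfold diff negv
    simp [hne hq hi, hne hq hj])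
  have h5 := hG1 z hz (fun q hq => by
    unfold diff negv
    simp [hne hq hi, hne hq hj])
  have h6 := hG2 z hz (fun q hq => by
    unfold diff negv
    simp [hne hq hk, hne hq hl'])
  have h7 := hG3 z hz (fun q hq => by
    unfold diff negv
    simp [hne hq hk, hne hq hl'])
  rw [prod_diff z (hz0 hi) (hz0 hj), prod_diff z (hz0 hk) (hz0 hl')] at h3
  rw [prod_negv, prod_diff z (hz0 hi) (hz0 hj)] at h4 h5
  rw [prod_negv, prod_diff z (hz0 hk) (hz0 hl')] at h6 h7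
  obtain ⟨-, h8⟩ := hB _ _ ![(z j)⁻¹, (z i)⁻¹, (z l)⁻¹, (z k)⁻¹] ζ₁ ζ₂ g₁ g₂ a1 b1 a3 b3 (by
      intro r
      fin_cases r
      · exact hzi hj
      · exact hzi hi
      · exact hzi hl'
      · exact hzi hk) h3 h4 h5 h6 h7 a4 b4
  rw [b2]
  exact Nat.pow_le_pow_left h8 2

/-- **cases A and B** for affine images -/
theorem exists_affAB (hT : TorsionRel2) {Z : Set (Fin n → ℂ)} (hcor : CornerPos 1 Z)
    (hrel : HasRel Z) : ∃ M : ℕ, 0 < M ∧ ∀ p : ℕ, p.Prime → ¬ p ∣ M → ∀ v : AbsoluteValue ℂ ℝ,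
      IsNonarchimedean v → v (p : ℂ) < 1 → ∀ m : ℕ, 1 ≤ m → ∀ lam a : Fin n → ℚ,
        (∀ i, v (lam i : ℂ) * v (p : ℂ) ^ m = 1) → (∀ i, v (a i : ℂ) * v (p : ℂ) ^ m ≤ v (p : ℂ)) →
          AffA v Z lam a ∧ AffB v Z lam a := by
  classical
  obtain ⟨M₀, hM₀, h0⟩ := corners_dilate hcor
  -- the relation of two independent exponent vectors
  have hrel' : ∀ a b : Fin n → ℤ, ∃ (H : MvPolynomial (Fin 2) ℤ) (M : ℕ), 0 < M ∧
      ((∀ s t : ℤ, (∀ i, s * a i + t * b i = 0) → s = 0 ∧ t = 0) → Holds H Z a b ∧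
        ∀ p : ℕ, p.Prime → ¬ p ∣ M → ∀ v : AbsoluteValue ℂ ℝ, IsNonarchimedean v → v (p : ℂ) < 1 →
          GoodRel v p H) := by
    intro a b
    by_cases h : ∀ s t : ℤ, (∀ i, s * a i + t * b i = 0) → s = 0 ∧ t = 0
    · obtain ⟨H, M, h2, h3, h4⟩ := hrel a b h
      exact ⟨H, M, h2, fun _ => ⟨h3, h4⟩⟩
    · exact ⟨0, 1, one_pos, fun h' => absurd h' h⟩
  choose H M hM h1 using hrel'
  let ι := Fin n × Fin n × Fin n × Fin n
  let Mq : ι → ℕ := fun q => M (diff q.1 q.2.1) (diff q.2.2.1 q.2.2.2) *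
    (M (negv q.2.1) (diff q.1 q.2.1) * M (negv q.1) (diff q.1 q.2.1))
  have hMq : ∀ q, 0 < Mq q := fun q => Nat.mul_pos (hM _ _) (Nat.mul_pos (hM _ _) (hM _ _))
  refine ⟨M₀ * ∏ q, Mq q, Nat.mul_pos hM₀ (prod_pos fun q _ => hMq q), fun p hp hpM v hv hvp m hm lam a
    hlam ha => ?_⟩
  have hp0 : 0 < v (p : ℂ) := AbsoluteValue.pos_iff v |>.2 (by exact_mod_cast hp.ne_zero)
  have hc0 : 0 < v (p : ℂ) ^ m := pow_pos hp0 m
  have hcq : v (p : ℂ) ^ m ≤ v (p : ℂ) := by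
    have := pow_le_pow_of_le_one hp0.le hvp.le hm
    rwa [pow_one] at this
  have hpM₀ : ¬ p ∣ M₀ := fun h => hpM (h.mul_right _)
  have hpM' : ∀ q, ¬ p ∣ Mq q := fun q h => hpM ((h.trans (dvd_prod_of_mem Mq (mem_univ q))).mul_left _)
  have e1 : ∀ i j k l, ¬ p ∣ M (diff i j) (diff k l) := fun i j k l h =>
    hpM' (i, j, k, l) (h.mul_right _)
  have e2 : ∀ i j, ¬ p ∣ M (negv j) (diff i j) := fun i j h =>
    hpM' (i, j, i, j) ((h.mul_right _).mul_left _)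
  have e3 : ∀ i j, ¬ p ∣ M (negv i) (diff i j) := fun i j h =>
    hpM' (i, j, i, j) ((h.mul_left _).mul_left _)
  constructor
  · exact affA_of_corners hv hc0 hcq hvp hlam ha (h0 v hv (v_nat_eq_one hv hp hvp hpM₀) _)
  · have h2 : ∀ q : ι, ∃ B : ℕ, q.1 ≠ q.2.1 → q.2.2.1 ≠ q.2.2.2 → q.2.2.2 ≠ q.1 → q.2.2.2 ≠ q.2.1 →
        ∀ z ∈ Z, ∀ (N N' : ℕ), v (z q.1) = 1 → v (z q.2.1) = 1 → v (z q.2.2.1) = 1 →
          v (z q.2.2.2) = 1 → CyclicIsog N (lam q.1 * z q.1 + a q.1) (lam q.2.1 * z q.2.1 + a q.2.1) →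
            CyclicIsog N' (lam q.2.2.1 * z q.2.2.1 + a q.2.2.1) (lam q.2.2.2 * z q.2.2.2 + a q.2.2.2) →
              N' ≤ B := by
      rintro ⟨i, j, k, l⟩
      by_cases h : i ≠ j ∧ k ≠ l ∧ l ≠ i ∧ l ≠ j
      · obtain ⟨h3, h4⟩ := h1 (diff i j) (diff k l) (diff_indep h.1 h.2.1 h.2.2.1 h.2.2.2)
        obtain ⟨a3, a4⟩ := h1 (negv j) (diff i j) (negv_indep_right h.1)
        obtain ⟨b3, b4⟩ := h1 (negv i) (diff i j) (negv_indep_left h.1)
        obtain ⟨c3, c4⟩ := h1 (negv l) (diff k l) (negv_indep_right h.2.1)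
        obtain ⟨d3, d4⟩ := h1 (negv k) (diff k l) (negv_indep_left h.2.1)
        obtain ⟨B, hB⟩ := affB_one hT hv hp hvp hm hlam ha h3 (h4 p hp (e1 i j k l) v hv hvp)
          (G := ![H (negv j) (diff i j), H (negv i) (diff i j), H (negv l) (diff k l),
            H (negv k) (diff k l)]) (by
              intro r
              fin_cases r
              · exact a4 p hp (e2 i j) v hv hvp
              · exact b4 p hp (e3 i j) v hv hvp
              · exact c4 p hp (e2 k l) v hv hvp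
              · exact d4 p hp (e3 k l) v hv hvp) a3 b3 c3 d3
        exact ⟨B, fun _ _ _ _ => hB⟩
      · exact ⟨0, fun a b c d => absurd ⟨a, b, c, d⟩ h⟩
    choose B hB using h2
    refine ⟨univ.sup B, fun z hz i j k l N N' hi hj hk hl' hij hkl hli hlj hN hN' => ?_⟩
    exact (hB (i, j, k, l) hij hkl hli hlj z hz N N' hi hj hk hl' hN hN').trans
      (Finset.le_sup (mem_univ (i, j, k, l)))

end Pool.Agent.Helper22.DL
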