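import Pool.Agent.Helper22.DL.Zp
import Pool.Agent.Helper22.DL.AffAB

/-! # Affine images, uniformly: cases A and B -/

open MvPolynomial Finset

namespace Pool.Agent.Helper22.DL
open Pool.Agent.Helper11.ZP Pool.Agent.Helper11.ZU Pool.Agent.Helper20.ZD Pool.Agent.Helper11.LC
  Pool.Agent.Helper69.DL Pool.Agent.Helper36.DL Pool.Agent.Helper20.DL

variable {n : ℕ} {v : AbsoluteValue ℂ ℝ} {p m : ℕ} {lam a : Fin n → ℂ}

section basic
set_option linter.unusedSectionVars false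
variable (hvp0 : 0 < v (p : ℂ)) (h : AffAt v p m lam a)
include hvp0 h

lemma at_pow_le (hvp : v (p : ℂ) < 1) : v (p : ℂ) ^ m ≤ v (p : ℂ) := by
  have := pow_le_pow_of_le_one hvp0.le hvp.le h.one_le
  rwa [pow_one] at this

lemma at_v_lam (i : Fin n) : v (lam i) = (v (p : ℂ) ^ m)⁻¹ := by
  refine eq_inv_of_mul_eq_one_left ?_
  have := h.lam_one i
  rwa [map_mul, map_pow, mul_comm] at this

lemma at_lam_ne (i : Fin n) : lam i ≠ 0 := by
  rw [← AbsoluteValue.ne_zero_iff v, at_v_lam hvp0 h]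
  exact inv_ne_zero (pow_pos hvp0 m).ne'

lemma at_v_a (i : Fin n) : v (a i) * v (p : ℂ) ^ m ≤ v (p : ℂ) := by
  have := h.a_le i
  rwa [map_mul, map_pow, mul_comm] at this

lemma at_v_x (hv : IsNonarchimedean v) (hvp : v (p : ℂ) < 1) {z : Fin n → ℂ} {r : Fin n}
    (hr : v (z r) = 1) : v (lam r * z r + a r) = (v (p : ℂ) ^ m)⁻¹ := by
  have h1 : v (lam r * z r) = (v (p : ℂ) ^ m)⁻¹ := by rw [map_mul, hr, mul_one, at_v_lam hvp0 h]
  have h2 : v (a r) < (v (p : ℂ) ^ m)⁻¹ := by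
    rw [← one_div, lt_div_iff₀ (pow_pos hvp0 m)]
    exact (at_v_a hvp0 h r).trans_lt hvp
  rw [v_add_eq hv (by rw [h1]; exact h2), h1]

lemma at_mu (hv : IsNonarchimedean v) (hp : p.Prime) (hvp : v (p : ℂ) < 1) (i j : Fin n) :
    Zp v p (lam j / lam i) ∧ v (lam j / lam i) = 1 := by
  have hpC : (p : ℂ) ≠ 0 := (AbsoluteValue.pos_iff v).1 hvp0
  constructor
  · have h1 : lam j / lam i = ((p : ℂ) ^ m * lam j) * ((p : ℂ) ^ m * lam i)⁻¹ := by
      have := at_lam_ne hvp0 h i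
      field_simp
    rw [h1]
    exact zp_mul hv (h.lam_mem j) (zp_inv hv hp hvp (h.lam_mem i) (h.lam_one i))
  · rw [map_div₀, at_v_lam hvp0 h, at_v_lam hvp0 h, div_self (inv_ne_zero (pow_pos hvp0 m).ne')]

end basic

/-- **case A**, uniformly -/
theorem unifA_of_corners (hv : IsNonarchimedean v) (hp : p.Prime) (hvp : v (p : ℂ) < 1)
    {Z : Set (Fin n → ℂ)} (hcor : Corners v 1 (fun _ => 1) {x | (fun i => x i / (1 : ℂ)) ∈ Z}) :
    UnifA v p Z := by
  classical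
  have hvp0 : 0 < v (p : ℂ) := (AbsoluteValue.pos_iff v).2 (by exact_mod_cast hp.ne_zero)
  -- one pair
  have h1 : ∀ i k : Fin n, ∃ (Y : Finset ℂ) (ρ : ℝ), 0 ≤ ρ ∧ ρ < 1 ∧ (∀ c ∈ Y, v c = 1) ∧ (i ≠ k →
      ∀ z ∈ Z, v (z i) ≤ v (p : ℂ) → v (z k) = 1 → ∃ c ∈ Y, v (z k - c) ≤ ρ) := by
    intro i k
    by_cases hik : i = k
    · exact ⟨∅, 0, le_rfl, one_pos, by simp, fun h => absurd hik h⟩
    · obtain ⟨f, hf, hfV⟩ := hcor {i, k} (by rw [card_pair hik])
      obtain ⟨Y, ρ, a1, b1, c1, d1⟩ := near_of_corners hv hik hf hvp0.le hvp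
      refine ⟨Y, ρ, a1, b1, c1, fun _ z hz hzi hzk => d1 z ?_ hzi hzk⟩
      have h2 := hfV z (by
        change (fun i => z i / (1 : ℂ)) ∈ Z
        simpa using hz)
      simpa using h2
  choose Y ρ hρ0 hρ1 hY hd using h1
  rcases isEmpty_or_nonempty (Fin n) with hn | hn
  · exact ⟨0, fun m lam a _ z _ i => isEmptyElim i⟩
  obtain ⟨r, -, hr⟩ := exists_max_image (univ : Finset (Fin n × Fin n)) (fun r => ρ r.1 r.2)
    ⟨(Classical.arbitrary _, Classical.arbitrary _), mem_univ _⟩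
  set ρ' := max (ρ r.1 r.2) (v (p : ℂ)) with hρ'
  have hρ'1 : ρ' < 1 := max_lt (hρ1 r.1 r.2) hvp
  have hρ'0 : 0 ≤ ρ' := hvp0.le.trans (le_max_right _ _)
  choose G hG using fun u : ℂ => root_bound v hv hρ'1 u
  set C : Finset ℂ := (univ : Finset (Fin n × Fin n)).biUnion fun q => Y q.1 q.2 with hC
  set W : Finset ℂ := ((range p) ×ˢ (C ×ˢ C)).image fun q => (q.1 : ℂ) * q.2.1 / q.2.2 with hW
  refine ⟨(W.sup G) ^ 2, fun m lam a h z hz i k l N hi hk hl hik hil _ hN => ?_⟩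
  have hc0 : 0 < v (p : ℂ) ^ m := pow_pos hvp0 m
  have hcq := at_pow_le hvp0 h hvp
  have hl0 := at_lam_ne hvp0 h
  have hzi : v (z i) ≤ v (p : ℂ) := by
    have h2 : lam i * z i = (lam i * z i + a i) - a i := by ring
    have h3 : v (lam i * z i) ≤ v (p : ℂ) * (v (p : ℂ) ^ m)⁻¹ := by
      rw [h2]
      refine (v_sub_le hv _ _).trans (max_le (hi.trans ?_) ?_)
      · rw [← div_eq_mul_inv, le_div_iff₀ hc0, one_mul]
        exact hcq
      · rw [← div_eq_mul_inv, le_div_iff₀ hc0]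
        exact at_v_a hvp0 h i
    rw [map_mul, at_v_lam hvp0 h, mul_comm (v (p : ℂ))] at h3
    exact le_of_mul_le_mul_left h3 (inv_pos.2 hc0)
  obtain ⟨c, hc, h4⟩ := hd i k hik z hz hzi hk
  obtain ⟨c', hc', h5⟩ := hd i l hil z hz hzi hl
  have hvc := hY _ _ c hc
  have hvc' := hY _ _ c' hc'
  have hcC : c ∈ C := mem_biUnion.2 ⟨(i, k), mem_univ _, hc⟩
  have hcC' : c' ∈ C := mem_biUnion.2 ⟨(i, l), mem_univ _, hc'⟩
  obtain ⟨hμZ, hμ1⟩ := at_mu hvp0 h hv hp hvp l k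
  obtain ⟨q, hq, hqμ⟩ := zp_mod hv hp hμZ
  have hN0 : 0 < N := Nat.pos_of_ne_zero fun h0 => not_isog_zero (h0 ▸ hN)
  have hxk := at_v_x hvp0 h hv hvp hk
  have hxl := at_v_x hvp0 h hv hvp hl
  obtain ⟨g, ζ, hg, hNg, hζ, hd'⟩ := pair_square hv (x := lam k * z k + a k) (y := lam l * z l + a l)
    (by rw [hxk]; exact (one_lt_inv₀ hc0).2 (hcq.trans_lt hvp)) (by rw [hxk, hxl]) hN0 hN
  rw [hxk, inv_inv] at hd'
  have hz0 : ∀ {x : ℂ}, v x = 1 → x ≠ 0 := fun {x} hx h0 => by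
    rw [h0, map_zero] at hx
    exact zero_ne_one hx
  have hpC : (p : ℂ) ≠ 0 := (AbsoluteValue.pos_iff v).1 hvp0
  -- the ratio
  have h6 : v ((lam k * z k + a k) / (lam l * z l + a l) - (q : ℂ) * c / c') ≤ ρ' := by
    have hx0 : lam l * z l + a l ≠ 0 := by
      rw [← AbsoluteValue.ne_zero_iff v, hxl]
      exact inv_ne_zero hc0.ne'
    have hc'0 := hz0 hvc'
    have e1 : (lam k * z k + a k) / (lam l * z l + a l) - (q : ℂ) * c / c' =
        ((lam k / lam l - q) * (z k * c') + q * (c' * (z k - c) - c * (z l - c')) +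
          (a k / lam l * c' - q * c * (a l / lam l))) /
            ((lam l * z l + a l) / lam l * c') := by
      have := hl0 l
      field_simp
      ring
    have e2 : v ((lam l * z l + a l) / lam l * c') = 1 := by
      rw [map_mul, map_div₀, hxl, at_v_lam hvp0 h, div_self (inv_ne_zero hc0.ne'), hvc', one_mul]
    have hq1 : v (q : ℂ) ≤ 1 := v_ofNat_le hv q
    have hal : ∀ s t, v (a s / lam t) ≤ v (p : ℂ) := fun s t => by
      rw [map_div₀, at_v_lam hvp0 h, div_inv_eq_mul]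
      exact at_v_a hvp0 h s
    have h4' := (h4.trans (hr (i, k) (mem_univ _))).trans (le_max_left _ (v (p : ℂ)))
    have h5' := (h5.trans (hr (i, l) (mem_univ _))).trans (le_max_left _ (v (p : ℂ)))
    rw [e1, map_div₀, e2, div_one]
    refine (hv _ _).trans (max_le ((hv _ _).trans (max_le ?_ ?_)) ((v_sub_le hv _ _).trans (max_le ?_ ?_)))
    · rw [map_mul, map_mul, hk, hvc', mul_one, mul_one]
      exact hqμ.trans (le_max_right _ _)
    · rw [map_mul]
      refine (mul_le_of_le_one_left (AbsoluteValue.nonneg v _) hq1).trans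
        ((v_sub_le hv _ _).trans (max_le ?_ ?_))
      · rw [map_mul, hvc', one_mul]
        exact h4'
      · rw [map_mul, hvc, one_mul]
        exact h5'
    · rw [map_mul, hvc', mul_one]
      exact (hal k l).trans (le_max_right _ _)
    · rw [map_mul, map_mul, hvc, mul_one]
      exact (mul_le_of_le_one_left (AbsoluteValue.nonneg v _) hq1).trans ((hal l l).trans (le_max_right _ _))
  have h7 : v (ζ - (q : ℂ) * c / c') ≤ ρ' := by
    rw [show ζ - (q : ℂ) * c / c' = (ζ - (lam k * z k + a k) / (lam l * z l + a l)) +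
      ((lam k * z k + a k) / (lam l * z l + a l) - (q : ℂ) * c / c') by ring]
    exact (hv _ _).trans (max_le (hd'.trans (hcq.trans (le_max_right _ _))) h6)
  have h8 : (q : ℂ) * c / c' ∈ W := mem_image.2 ⟨(q, c, c'), mem_product.2 ⟨hq, mem_product.2 ⟨hcC, hcC'⟩⟩, rfl⟩
  rw [hNg]
  exact Nat.pow_le_pow_left ((hG _ ζ g hg hζ h7).trans (le_sup (f := G) h8)) 2

/-- the constant of the first order term -/
noncomputable def betaC (lam a : Fin n → ℂ) (p : ℕ) (t : Fin n) : ℂ := (a t - 744) / (lam t * p)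

lemma zp_beta (hv : IsNonarchimedean v) (hp : p.Prime) (hvp : v (p : ℂ) < 1) (h : AffAt v p m lam a)
    (t : Fin n) : Zp v p (betaC lam a p t) := by
  have hpC : (p : ℂ) ≠ 0 := by exact_mod_cast hp.ne_zero
  have hvp0 : 0 < v (p : ℂ) := (AbsoluteValue.pos_iff v).2 hpC
  have hl0 := at_lam_ne hvp0 h t
  have h744 : Zp v p (744 : ℂ) := by exact_mod_cast zp_int (744 : ℤ)
  have e1 : betaC lam a p t =
      ((p : ℂ) ^ m * a t - (p : ℂ) ^ m * 744) / p * ((p : ℂ) ^ m * lam t)⁻¹ := by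
    unfold betaC
    field_simp
  have h1 : Zp v p ((p : ℂ) ^ m * a t - (p : ℂ) ^ m * 744) := by
    rw [sub_eq_add_neg]
    exact zp_add hv (h.a_mem t) (zp_neg (zp_mul hv (zp_pow hv zp_p m) h744))
  rw [e1]
  refine zp_mul hv (zp_div_p hv hp hvp h1 ((v_sub_le hv _ _).trans (max_le (h.a_le t) ?_)))
    (zp_inv hv hp hvp (h.lam_mem t) (h.lam_one t))
  rw [map_mul, map_pow]
  exact (mul_le_of_le_one_right (pow_nonneg hvp0.le _) (zp_le hv h744)).trans (at_pow_le hvp0 h hvp)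

/-- one pair of isogenous coordinates, with the first order term -/
lemma ratio_nearC (hv : IsNonarchimedean v) (hp : p.Prime) (hvp : v (p : ℂ) < 1) (h : AffAt v p m lam a)
    {z : Fin n → ℂ} {i j : Fin n} (hi : v (z i) = 1)
    (hj : v (z j) = 1) {N : ℕ} (hN : CyclicIsog N (lam i * z i + a i) (lam j * z j + a j)) :
    ∃ (g : ℕ) (ζ : ℂ), 0 < g ∧ N = g ^ 2 ∧ IsPrimitiveRoot ζ g ∧
      v (z i / z j - lam j / lam i * ζ * (1 + p * (betaC lam a p j * (z j)⁻¹ +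
        (-betaC lam a p i) * (z i)⁻¹))) < v (p : ℂ) := by
  have hpC : (p : ℂ) ≠ 0 := by exact_mod_cast hp.ne_zero
  have hp0 : 0 < v (p : ℂ) := (AbsoluteValue.pos_iff v).2 hpC
  have hN0 : 0 < N := Nat.pos_of_ne_zero fun h0 => not_isog_zero (h0 ▸ hN)
  have hc0 : 0 < v (p : ℂ) ^ m := pow_pos hp0 m
  have hcq := at_pow_le hp0 h hvp
  have hl0 := at_lam_ne hp0 h
  have hz0 : ∀ {r}, v (z r) = 1 → z r ≠ 0 := fun {r} hr h0 => by
    rw [h0, map_zero] at hr
    exact zero_ne_one hr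
  have hvx : ∀ {r}, v (z r) = 1 → v (lam r * z r + a r) = (v (p : ℂ) ^ m)⁻¹ := fun {r} hr =>
    at_v_x hp0 h hv hvp hr
  obtain ⟨g, ζ, hg, hNg, hζ, hd⟩ := sharp_rigid hv (x := lam i * z i + a i) (y := lam j * z j + a j)
    (by rw [hvx hi]; exact (one_lt_inv₀ hc0).2 (hcq.trans_lt hvp)) (by rw [hvx hi, hvx hj]) hN0 hN
  refine ⟨g, ζ, hg, hNg, hζ, ?_⟩
  rw [hvx hi, inv_inv] at hd
  -- the small quantities
  set w : Fin n → ℂ := fun r => (a r - 744) / (lam r * z r) with hw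
  have hwv : ∀ {r}, v (z r) = 1 → v (w r) ≤ v (p : ℂ) := fun {r} hr => by
    have h1 : w r = betaC lam a p r * p * (z r)⁻¹ := by
      simp only [hw, betaC]
      have := hl0 r
      have := hz0 hr
      field_simp
    rw [h1, map_mul, map_mul, map_inv₀, hr, inv_one, mul_one]
    exact mul_le_of_le_one_left hp0.le (zp_le hv (zp_beta hv hp hvp h r))
  have hx : ∀ {r}, v (z r) = 1 → (lam r * z r + a r - 744 : ℂ) = lam r * z r * (1 + w r) := fun {r} hr => by
    simp only [hw]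
    have := hl0 r
    have := hz0 hr
    field_simp
    ring
  have h1w : ∀ {r}, v (z r) = 1 → v (1 + w r) = 1 := fun {r} hr => by
    rw [v_add_eq hv (by rw [map_one]; exact (hwv hr).trans_lt hvp), map_one]
  have h1w0 : ∀ {r}, v (z r) = 1 → 1 + w r ≠ 0 := fun {r} hr => by
    rw [← AbsoluteValue.ne_zero_iff v, h1w hr]
    exact one_ne_zero
  have hμ : v (lam j / lam i) = 1 := (at_mu hp0 h hv hp hvp i j).2
  have hvζ : v ζ = 1 := by
    have h2 : v ζ ^ g = 1 := by rw [← map_pow, hζ.pow_eq_one, map_one]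
    exact (pow_eq_one_iff_of_nonneg (AbsoluteValue.nonneg v _) hg.ne').1 h2
  set ε := (lam i * z i + a i - 744 : ℂ) / (lam j * z j + a j - 744) - ζ with hε
  have hεv : v ε ≤ v (p : ℂ) ^ 2 := hd.trans (pow_le_pow_left₀ hc0.le hcq 2)
  have e1 : z i / z j = lam j / lam i * (ζ + ε) * (1 + w j) / (1 + w i) := by
    rw [hε, hx hi, hx hj]
    have := hl0 i
    have := hl0 j
    have := hz0 hi
    have := hz0 hj
    have := h1w0 hi
    have := h1w0 hj
    field_simp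
    ring
  have e2 : (p : ℂ) * (betaC lam a p j * (z j)⁻¹ + (-betaC lam a p i) * (z i)⁻¹) = w j - w i := by
    simp only [hw, betaC]
    have := hl0 i
    have := hl0 j
    have := hz0 hi
    have := hz0 hj
    field_simp
    ring
  have e3 : z i / z j - lam j / lam i * ζ * (1 + (w j - w i)) =
      lam j / lam i * ((ε * (1 + w j) + ζ * (w i * (w i - w j))) / (1 + w i)) := by
    rw [e1]
    have := h1w0 hi
    field_simp
    ring
  rw [e2, e3, map_mul, hμ, one_mul, map_div₀, h1w hi, div_one]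
  have h2 : v (p : ℂ) ^ 2 < v (p : ℂ) := by
    rw [pow_two]
    exact mul_lt_of_lt_one_left hp0 hvp
  refine lt_of_le_of_lt ((hv _ _).trans (max_le ?_ ?_)) h2
  · rw [map_mul, h1w hj, mul_one]
    exact hεv
  · rw [map_mul, hvζ, one_mul, map_mul, pow_two]
    exact mul_le_mul (hwv hi) ((v_sub_le hv _ _).trans (max_le (hwv hi) (hwv hj)))
      (AbsoluteValue.nonneg v _) hp0.le

/-- **case B**, uniformly, for one quadruple of indices -/
lemma unifB_one (hT : TorsionRelU) (hv : IsNonarchimedean v) (hp : p.Prime) (hvp : v (p : ℂ) < 1)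
    {Z : Set (Fin n → ℂ)} {i j k l : Fin n}
    {H : MvPolynomial (Fin 2) ℤ} (hH : Holds H Z (diff i j) (diff k l)) (hg : GoodRel v p H)
    {G : Fin 4 → MvPolynomial (Fin 2) ℤ} (hG : ∀ r, GoodRel v p (G r))
    (hG0 : Holds (G 0) Z (negv j) (diff i j)) (hG1 : Holds (G 1) Z (negv i) (diff i j))
    (hG2 : Holds (G 2) Z (negv l) (diff k l)) (hG3 : Holds (G 3) Z (negv k) (diff k l)) :
    ∃ B : ℕ, ∀ (m : ℕ) (lam a : Fin n → ℂ), AffAt v p m lam a → ∀ z ∈ Z, ∀ (N N' : ℕ), v (z i) = 1 →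
      v (z j) = 1 → v (z k) = 1 → v (z l) = 1 → CyclicIsog N (lam i * z i + a i) (lam j * z j + a j) →
        CyclicIsog N' (lam k * z k + a k) (lam l * z l + a l) → N' ≤ B := by
  have hp0 : 0 < v (p : ℂ) := AbsoluteValue.pos_iff v |>.2 (by exact_mod_cast hp.ne_zero)
  obtain ⟨B, hB⟩ := hT v hv p hp hvp H hg G hG
  refine ⟨B ^ 2, fun m lam a h z hz N N' hi hj hk hl' h1 h2 => ?_⟩
  have hβ := zp_beta hv hp hvp h
  have hz0 : ∀ {q}, v (z q) = 1 → z q ≠ 0 := fun {q} hq h0 => by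
    rw [h0, map_zero] at hq
    exact zero_ne_one hq
  have hzi : ∀ {q}, v (z q) = 1 → v (z q)⁻¹ = 1 := fun {q} hq => by rw [map_inv₀, hq, inv_one]
  obtain ⟨g₁, ζ₁, a1, a2, a3, a4⟩ := ratio_nearC hv hp hvp h hi hj h1
  obtain ⟨g₂, ζ₂, b1, b2, b3, b4⟩ := ratio_nearC hv hp hvp h hk hl' h2
  have hne : ∀ {q r}, z q = 0 → v (z r) = 1 → q ≠ r := fun {q r} hq hr h => hz0 hr (h ▸ hq)
  have h3 := hH z hz (fun q hq => by
    unfold diff
    simp [hne hq hi, hne hq hj, hne hq hk, hne hq hl'])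
  have h4 := hG0 z hz (fun q hq => by
    unfold diff negv
    simp [hne hq hi, hne hq hj])
  have h5 := hG1 z hz (fun q hq => by
    unfold diff negv
    simp [hne hq hi, hne hq hj])
  have h6 := hG2 z hz (fun q hq => by
    unfold diff negv
    simp [hne hq hk, hne hq hl'])
  have h7 := hG3 z hz (fun q hq => by
    unfold diff negv
    simp [hne hq hk, hne hq hl'])
  rw [prod_diff z (hz0 hi) (hz0 hj), prod_diff z (hz0 hk) (hz0 hl')] at h3
  rw [prod_negv, prod_diff z (hz0 hi) (hz0 hj)] at h4 h5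
  rw [prod_negv, prod_diff z (hz0 hk) (hz0 hl')] at h6 h7
  obtain ⟨-, h8⟩ := hB (lam j / lam i) (lam l / lam k) (at_mu hp0 h hv hp hvp i j).1
    (at_mu hp0 h hv hp hvp k l).1 (at_mu hp0 h hv hp hvp i j).2 (at_mu hp0 h hv hp hvp k l).2
    ![betaC lam a p j, -betaC lam a p i, betaC lam a p l, -betaC lam a p k] (by
      intro r
      fin_cases r
      · exact hβ j
      · exact zp_neg (hβ i)
      · exact hβ l
      · exact zp_neg (hβ k)) _ _ ![(z j)⁻¹, (z i)⁻¹, (z l)⁻¹, (z k)⁻¹] ζ₁ ζ₂ g₁ g₂ a1 b1 a3 b3 (by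
      intro r
      fin_cases r
      · exact (hzi hj).le
      · exact (hzi hi).le
      · exact (hzi hl').le
      · exact (hzi hk).le) h3 h4 h5 h6 h7 a4 b4
  rw [b2]
  exact Nat.pow_le_pow_left h8 2

/-- **cases A and B**, uniformly -/
theorem unifAB (hT : TorsionRelU) {Z : Set (Fin n → ℂ)} (hcor : CornerPos 1 Z)
    (hrel : HasRel Z) : ∃ M : ℕ, 0 < M ∧ ∀ p : ℕ, p.Prime → ¬ p ∣ M → ∀ v : AbsoluteValue ℂ ℝ,
      IsNonarchimedean v → v (p : ℂ) < 1 → UnifA v p Z ∧ UnifB v p Z := by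
  classical
  obtain ⟨M₀, hM₀, h0⟩ := corners_dilate hcor
  -- the relation of two independent exponent vectors
  have hrel' : ∀ a b : Fin n → ℤ, ∃ (H : MvPolynomial (Fin 2) ℤ) (M : ℕ), 0 < M ∧
      ((∀ s t : ℤ, (∀ i, s * a i + t * b i = 0) → s = 0 ∧ t = 0) → Holds H Z a b ∧
        ∀ p : ℕ, p.Prime → ¬ p ∣ M → ∀ v : AbsoluteValue ℂ ℝ, IsNonarchimedean v → v (p : ℂ) < 1 →
          GoodRel v p H) := by
    intro a b
    by_cases h : ∀ s t : ℤ, (∀ i, s * a i + t * b i = 0) → s = 0 ∧ t = 0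
    · obtain ⟨H, M, h2, h3, h4⟩ := hrel a b h
      exact ⟨H, M, h2, fun _ => ⟨h3, h4⟩⟩
    · exact ⟨0, 1, one_pos, fun h' => absurd h' h⟩
  choose H M hM h1 using hrel'
  let ι := Fin n × Fin n × Fin n × Fin n
  let Mq : ι → ℕ := fun q => M (diff q.1 q.2.1) (diff q.2.2.1 q.2.2.2) *
    (M (negv q.2.1) (diff q.1 q.2.1) * M (negv q.1) (diff q.1 q.2.1))
  have hMq : ∀ q, 0 < Mq q := fun q => Nat.mul_pos (hM _ _) (Nat.mul_pos (hM _ _) (hM _ _))
  refine ⟨M₀ * ∏ q, Mq q, Nat.mul_pos hM₀ (prod_pos fun q _ => hMq q), fun p hp hpM v hv hvp => ?_⟩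
  have hpM₀ : ¬ p ∣ M₀ := fun h => hpM (h.mul_right _)
  have hpM' : ∀ q, ¬ p ∣ Mq q := fun q h => hpM ((h.trans (dvd_prod_of_mem Mq (mem_univ q))).mul_left _)
  have e1 : ∀ i j k l, ¬ p ∣ M (diff i j) (diff k l) := fun i j k l h =>
    hpM' (i, j, k, l) (h.mul_right _)
  have e2 : ∀ i j, ¬ p ∣ M (negv j) (diff i j) := fun i j h =>
    hpM' (i, j, i, j) ((h.mul_right _).mul_left _)
  have e3 : ∀ i j, ¬ p ∣ M (negv i) (diff i j) := fun i j h =>
    hpM' (i, j, i, j) ((h.mul_left _).mul_left _)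
  constructor
  · exact unifA_of_corners hv hp hvp (h0 v hv (Pool.Agent.Helper36.DL.v_nat_eq_one hv hp hvp hpM₀) fun _ => 1)
  · have h2 : ∀ q : ι, ∃ B : ℕ, q.1 ≠ q.2.1 → q.2.2.1 ≠ q.2.2.2 → q.2.2.2 ≠ q.1 → q.2.2.2 ≠ q.2.1 →
        ∀ (m : ℕ) (lam a : Fin n → ℂ), AffAt v p m lam a → ∀ z ∈ Z, ∀ (N N' : ℕ), v (z q.1) = 1 →
          v (z q.2.1) = 1 → v (z q.2.2.1) = 1 → v (z q.2.2.2) = 1 →
            CyclicIsog N (lam q.1 * z q.1 + a q.1) (lam q.2.1 * z q.2.1 + a q.2.1) →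
              CyclicIsog N' (lam q.2.2.1 * z q.2.2.1 + a q.2.2.1) (lam q.2.2.2 * z q.2.2.2 + a q.2.2.2) →
                N' ≤ B := by
      rintro ⟨i, j, k, l⟩
      by_cases h : i ≠ j ∧ k ≠ l ∧ l ≠ i ∧ l ≠ j
      · obtain ⟨h3, h4⟩ := h1 (diff i j) (diff k l) (diff_indep h.1 h.2.1 h.2.2.1 h.2.2.2)
        obtain ⟨a3, a4⟩ := h1 (negv j) (diff i j) (negv_indep_right h.1)
        obtain ⟨b3, b4⟩ := h1 (negv i) (diff i j) (negv_indep_left h.1)
        obtain ⟨c3, c4⟩ := h1 (negv l) (diff k l) (negv_indep_right h.2.1)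
        obtain ⟨d3, d4⟩ := h1 (negv k) (diff k l) (negv_indep_left h.2.1)
        obtain ⟨B, hB⟩ := unifB_one hT hv hp hvp h3 (h4 p hp (e1 i j k l) v hv hvp)
          (G := ![H (negv j) (diff i j), H (negv i) (diff i j), H (negv l) (diff k l),
            H (negv k) (diff k l)]) (by
              intro r
              fin_cases r
              · exact a4 p hp (e2 i j) v hv hvp
              · exact b4 p hp (e3 i j) v hv hvp
              · exact c4 p hp (e2 k l) v hv hvp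
              · exact d4 p hp (e3 k l) v hv hvp) a3 b3 c3 d3
        exact ⟨B, fun _ _ _ _ => hB⟩
      · exact ⟨0, fun a b c d => absurd ⟨a, b, c, d⟩ h⟩
    choose B hB using h2
    refine ⟨univ.sup B, fun m lam a h z hz i j k l N N' hi hj hk hl' hij hkl hli hlj hN hN' => ?_⟩
    exact (hB (i, j, k, l) hij hkl hli hlj m lam a h z hz N N' hi hj hk hl' hN hN').trans
      (Finset.le_sup (mem_univ (i, j, k, l)))

end Pool.Agent.Helper22.DL
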