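import Pool.Agent.Helper69.DL.Defs

/-! # Dilates: a coordinate with complex multiplication; the shape of an isogeny between two
coordinates of equal absolute value -/

open MvPolynomial Finset

namespace Pool.Agent.Helper22.DL
open Pool.Agent.Helper11.ZP Pool.Agent.Helper11.ZU Pool.Agent.Helper20.ZD Pool.Agent.Helper11.LC

variable {n : ℕ} {v : AbsoluteValue ℂ ℝ}

/-- the part of `f`, a polynomial in the variables `i` and `k`, of degree zero in `i` -/
noncomputable def botPoly (f : MvPolynomial (Fin n) ℂ) (i k : Fin n) : Polynomial ℂ :=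
  ∑ m ∈ f.support.filter fun m => m i = 0, Polynomial.C (f.coeff m) * Polynomial.X ^ m k

lemma corner_singleton (f : MvPolynomial (Fin n) ℂ) {i k : Fin n} (hik : i ≠ k) :
    corner f {k} i = 0 ∧ corner f {k} k = f.degreeOf k ∧ ∀ j, j ≠ k → corner f {k} j = 0 := by
  classical
  have h : ∀ j, corner f {k} j = if j ∈ ({k} : Finset (Fin n)) then f.degreeOf j else 0 := fun j => rfl
  refine ⟨?_, ?_, fun j hj => ?_⟩
  · rw [h, if_neg (by simpa using hik)]
  · rw [h, if_pos (mem_singleton_self k)]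
  · rw [h, if_neg (by simpa using hj)]

section bot
variable {f : MvPolynomial (Fin n) ℂ} {i k : Fin n}

lemma eq_of_bot (hik : i ≠ k) (hf : f.vars ⊆ {i, k}) {m m' : Fin n →₀ ℕ} (hm : m ∈ f.support)
    (hm' : m' ∈ f.support) (h0 : m i = 0) (h0' : m' i = 0) (h : m k = m' k) : m = m' := by
  classical
  ext j
  by_cases hj : j ∈ ({i, k} : Finset (Fin n))
  · rw [mem_insert, mem_singleton] at hj
    rcases hj with rfl | rfl
    · rw [h0, h0']
    · exact h
  · have h1 : ∀ m ∈ f.support, m j = 0 := fun m hm => by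
      by_contra hne
      exact hj (hf ((mem_vars_iff_mem_support j).2 ⟨m, hm, Finsupp.mem_support_iff.2 hne⟩))
    rw [h1 m hm, h1 m' hm']

lemma coeff_botPoly (hik : i ≠ k) (hf : f.vars ⊆ {i, k}) {m : Fin n →₀ ℕ} (hm : m ∈ f.support)
    (h0 : m i = 0) : (botPoly f i k).coeff (m k) = f.coeff m := by
  classical
  unfold botPoly
  rw [Polynomial.finsetSum_coeff, Finset.sum_eq_single m]
  · rw [Polynomial.coeff_C_mul, Polynomial.coeff_X_pow, if_pos rfl, mul_one]
  · intro m' hm' hne
    rw [Polynomial.coeff_C_mul, Polynomial.coeff_X_pow, if_neg, mul_zero]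
    intro h
    rw [mem_filter] at hm'
    exact hne (eq_of_bot hik hf hm'.1 hm hm'.2 h0 h.symm)
  · intro hne
    exact absurd (mem_filter.2 ⟨hm, h0⟩) hne

lemma natDegree_botPoly_le : (botPoly f i k).natDegree ≤ f.degreeOf k := by
  classical
  unfold botPoly
  refine Polynomial.natDegree_sum_le_of_forall_le _ _ fun m hm => ?_
  refine (Polynomial.natDegree_C_mul_X_pow_le _ _).trans ?_
  exact monomial_le_degreeOf k (mem_filter.1 hm).1

lemma eval_botPoly (z : Fin n → ℂ) (hik : i ≠ k) (hf : f.vars ⊆ {i, k}) :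
    eval z f = (botPoly f i k).eval (z k) +
      ∑ m ∈ f.support.filter fun m => ¬ m i = 0, f.coeff m * (z i ^ m i * z k ^ m k) := by
  classical
  have hj : ∀ m ∈ f.support, ∏ j, z j ^ m j = z i ^ m i * z k ^ m k := by
    intro m hm
    rw [← mul_prod_erase univ (fun j => z j ^ m j) (mem_univ i),
      ← mul_prod_erase (univ.erase i) (fun j => z j ^ m j) (mem_erase.2 ⟨hik.symm, mem_univ k⟩),
      Finset.prod_eq_one, mul_one]
    intro j hj'
    rw [mem_erase, mem_erase] at hj'
    have : m j = 0 := by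
      by_contra hne
      have h1 := hf ((mem_vars_iff_mem_support j).2 ⟨m, hm, Finsupp.mem_support_iff.2 hne⟩)
      rw [mem_insert, mem_singleton] at h1
      rcases h1 with h1 | h1
      · exact hj'.2.1 h1
      · exact hj'.1 h1
    rw [this, pow_zero]
  rw [eval_eq', ← sum_filter_add_sum_filter_not f.support (fun m => m i = 0)]
  congr 1
  · unfold botPoly
    rw [Polynomial.eval_finset_sum]
    refine sum_congr rfl fun m hm => ?_
    rw [mem_filter] at hm
    rw [hj m hm.1, hm.2, pow_zero, one_mul, Polynomial.eval_mul, Polynomial.eval_C,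
      Polynomial.eval_pow, Polynomial.eval_X]
  · exact sum_congr rfl fun m hm => by rw [hj m (mem_filter.1 hm).1]

end bot

/-- a coordinate is close to one of finitely many units if another coordinate is small -/
lemma near_of_corners (hv : IsNonarchimedean v) {i k : Fin n} (hik : i ≠ k)
    {f : MvPolynomial (Fin n) ℂ} (hf : UnitCorners v {i, k} f) {δ : ℝ} (hδ0 : 0 ≤ δ) (hδ : δ < 1) :
    ∃ (Y : Finset ℂ) (ρ : ℝ), 0 ≤ ρ ∧ ρ < 1 ∧ (∀ c ∈ Y, v c = 1) ∧ ∀ z : Fin n → ℂ, eval z f = 0 →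
      v (z i) ≤ δ → v (z k) = 1 → ∃ c ∈ Y, v (z k - c) ≤ ρ := by
  classical
  obtain ⟨hvars, hint, hcor⟩ := hf
  set P := botPoly f i k with hP
  obtain ⟨c0, c1, -⟩ := corner_singleton f hik
  have hk : v (f.coeff (corner f {k})) = 1 := hcor {k} (by simp)
  have hmem : corner f {k} ∈ f.support := mem_support_iff.2 fun h => by
    rw [h, map_zero] at hk
    exact zero_ne_one hk
  have hlc : v (P.coeff (f.degreeOf k)) = 1 := by
    rw [← c1, hP, coeff_botPoly hik hvars hmem c0]
    exact hk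
  have hdeg : P.natDegree = f.degreeOf k := by
    refine le_antisymm natDegree_botPoly_le (Polynomial.le_natDegree_of_ne_zero fun h => ?_)
    rw [h, map_zero] at hlc
    exact zero_ne_one hlc
  have hl : v P.leadingCoeff = 1 := by rw [Polynomial.leadingCoeff, hdeg]; exact hlc
  obtain ⟨ρ, hρ0, hρ1, hρ⟩ := exists_rho hδ hδ0 P.natDegree
  refine ⟨P.roots.toFinset.filter fun c => v c = 1, ρ, hρ0, hρ1, fun c hc => (mem_filter.1 hc).2,
    fun z hz hzi hzk => ?_⟩
  -- the value of `P`
  have h1 : v (P.eval (z k)) ≤ δ := by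
    have h2 := eval_botPoly z hik hvars
    rw [hz] at h2
    have h3 : P.eval (z k) =
        -∑ m ∈ f.support.filter fun m => ¬ m i = 0, f.coeff m * (z i ^ m i * z k ^ m k) := by
      linear_combination -h2
    rw [h3, v_neg]
    refine val_sum_le hv _ _ hδ0 fun m hm => ?_
    rw [map_mul, map_mul, map_pow, map_pow, hzk, one_pow, mul_one]
    have h4 : v (z i) ^ m i ≤ v (z i) ^ 1 :=
      pow_le_pow_of_le_one (v.nonneg _) (hzi.trans hδ.le) (Nat.one_le_iff_ne_zero.2 (mem_filter.1 hm).2)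
    rw [pow_one] at h4
    calc v (f.coeff m) * v (z i) ^ m i ≤ 1 * v (z i) ^ m i :=
          mul_le_mul_of_nonneg_right (hint m) (pow_nonneg (v.nonneg _) _)
      _ ≤ δ := by rw [one_mul]; exact h4.trans hzi
  by_contra hcon
  push Not at hcon
  have hsp : P.Splits := IsAlgClosed.splits P
  have h5 : ∀ r ∈ P.roots, ρ < v (z k - r) := by
    intro r hr
    by_cases h : v r = 1
    · exact hcon r (mem_filter.2 ⟨Multiset.mem_toFinset.2 hr, h⟩)
    · refine lt_of_lt_of_le hρ1 ?_
      rcases lt_or_gt_of_ne h with h | h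
      · rw [sub_eq_add_neg, v_add_eq hv (by rw [v_neg, hzk]; exact h), hzk]
      · rw [v_sub_comm, sub_eq_add_neg, v_add_eq hv (by rw [v_neg, hzk]; exact h)]
        exact h.le
  have h6 : ρ ^ P.natDegree ≤ v (P.eval (z k)) := by
    rw [hsp.eval_eq_prod_roots (z k), map_mul, hl, one_mul, map_multiset_prod, Multiset.map_map,
      hsp.natDegree_eq_card_roots]
    have key : ∀ s : Multiset ℂ, (∀ r ∈ s, ρ < v (z k - r)) →
        ρ ^ s.card ≤ (s.map (v ∘ fun r => z k - r)).prod := by
      intro s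
      induction s using Multiset.induction_on with
      | empty => intro _; simp
      | cons a s ih =>
        intro hs
        rw [Multiset.card_cons, pow_succ, Multiset.map_cons, Multiset.prod_cons, mul_comm]
        exact mul_le_mul (hs a (Multiset.mem_cons_self a s)).le
          (ih fun r hr => hs r (Multiset.mem_cons_of_mem hr)) (pow_nonneg hρ0 _) (v.nonneg _)
    exact key P.roots h5
  linarith

/-- **a coordinate with complex multiplication**: there is a finite union of discs which contains every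
coordinate `x_k` with `v(x_k) = v(s_k)` of a point of `V` another coordinate of which is integral -/
theorem discs_of_integral (hv : IsNonarchimedean v) {s : Fin n → ℂ} (hs : ∀ i, 1 < v (s i))
    {V : Set (Fin n → ℂ)} (hV : Corners v 1 s V) :
    ∃ (F : Finset ℂ) (ρ : ℝ), ρ < 1 ∧ (∀ c ∈ F, 1 < v c) ∧ ∀ x ∈ V, ∀ i k, i ≠ k → v (x i) ≤ 1 →
      v (x k) = v (s k) → x k ∈ discs v F ρ := by
  classical
  have h0 : ∀ i, 0 < v (s i) := fun i => zero_lt_one.trans (hs i)
  -- one pair
  have h1 : ∀ i k : Fin n, ∃ (Y : Finset ℂ) (ρ : ℝ), 0 ≤ ρ ∧ ρ < 1 ∧ (∀ c ∈ Y, v c = 1) ∧ (i ≠ k →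
      ∀ x ∈ V, v (x i) ≤ 1 → v (x k) = v (s k) → ∃ c ∈ Y, v (x k / s k - c) ≤ ρ) := by
    intro i k
    by_cases hik : i = k
    · exact ⟨∅, 0, le_rfl, one_pos, by simp, fun h => absurd hik h⟩
    · obtain ⟨f, hf, hfV⟩ := hV {i, k} (by rw [card_pair hik])
      obtain ⟨Y, ρ, a, b, c, d⟩ := near_of_corners hv hik hf (δ := (v (s i))⁻¹)
        (inv_nonneg.2 (h0 i).le) (inv_lt_one_of_one_lt₀ (hs i))
      refine ⟨Y, ρ, a, b, c, fun _ x hx hxi hxk => d _ (hfV x hx) ?_ ?_⟩
      · rw [map_div₀, inv_eq_one_div]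
        exact div_le_div_of_nonneg_right hxi (h0 i).le
      · rw [map_div₀, hxk, div_self (h0 k).ne']
  choose Y ρ hρ0 hρ1 hY hd using h1
  rcases isEmpty_or_nonempty (Fin n) with hn | hn
  · exact ⟨∅, 0, one_pos, by simp, fun x _ i => isEmptyElim i⟩
  obtain ⟨q, -, hq⟩ := exists_max_image (univ : Finset (Fin n × Fin n)) (fun q => ρ q.1 q.2)
    ⟨(Classical.arbitrary _, Classical.arbitrary _), mem_univ _⟩
  refine ⟨(univ : Finset (Fin n × Fin n)).biUnion fun q => (Y q.1 q.2).image fun c => s q.2 * c,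
    ρ q.1 q.2, hρ1 _ _, fun c hc => ?_, fun x hx i k hik hxi hxk => ?_⟩
  · rw [mem_biUnion] at hc
    obtain ⟨q', -, hc⟩ := hc
    obtain ⟨c', hc', rfl⟩ := mem_image.1 hc
    rw [map_mul, hY _ _ c' hc', mul_one]
    exact hs _
  · obtain ⟨c, hc, h2⟩ := hd i k hik x hx hxi hxk
    have hk0 : s k ≠ 0 := (AbsoluteValue.pos_iff v).1 (h0 k)
    refine ⟨s k * c, mem_biUnion.2 ⟨(i, k), mem_univ _, mem_image.2 ⟨c, hc, rfl⟩⟩, ?_⟩
    have h3 : x k - s k * c = (x k / s k - c) * s k := by field_simp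
    rw [h3, map_mul, map_mul, hY _ _ c hc, mul_one]
    exact mul_le_mul_of_nonneg_right (h2.trans (hq (i, k) (mem_univ _))) (h0 k).le

/-- **the shape of an isogeny between two numbers of the same absolute value** -/
theorem pair_square (hv : IsNonarchimedean v) {x y : ℂ} (hx : 1 < v x) (hxy : v x = v y) {N : ℕ}
    (hN : 0 < N) (h : CyclicIsog N x y) : ∃ (g : ℕ) (ζ : ℂ), 0 < g ∧ N = g ^ 2 ∧ IsPrimitiveRoot ζ g ∧
      v (ζ - x / y) ≤ (v x)⁻¹ := by
  have hx0 : 0 < v x := zero_lt_one.trans hx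
  obtain ⟨e, f, g, ζ, he, hf, hcop, hg, hef, hNe, hζ, hd⟩ :=
    pair_shape (ρ := 0) hv zero_lt_one hx (by rw [← hxy]; exact hx) hN (by simp) (by simp) h
  rw [← hxy] at hef hd
  have h1 : f = e := pow_right_injective₀ hx0 hx.ne' hef
  subst h1
  have h2 : f = 1 := by
    have := hcop.gcd_eq_one
    rwa [Nat.gcd_self] at this
  subst h2
  rw [pow_one, pow_one, max_self, max_eq_right (inv_nonneg.2 hx0.le)] at hd
  exact ⟨g, ζ, hg, by rw [hNe]; ring, hζ, hd⟩

end Pool.Agent.Helper22.DL
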