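import Pool.Agent.Helper22.DL.Ker

/-! # Automorphisms of the complex numbers -/

open MvPolynomial Cardinal

namespace Pool.Agent.Helper22.DL
open Pool.Agent.Helper20.DL

universe u

/-- an isomorphism between algebraically closed fields over a countable ring -/
lemma exists_ringEquiv_over {R K L : Type u} [CommRing R] [IsDomain R] [Field K] [Field L]
    [Algebra R K] [Algebra R L] [FaithfulSMul R K] [FaithfulSMul R L] [IsAlgClosed K] [IsAlgClosed L]
    (hR : #R ≤ ℵ₀) (hK : ℵ₀ < #K) (hKL : #K = #L) :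
    ∃ σ : K ≃+* L, ∀ r : R, σ (algebraMap R K r) = algebraMap R L r := by
  obtain ⟨s, hs⟩ := exists_isTranscendenceBasis R K
  obtain ⟨t, ht⟩ := exists_isTranscendenceBasis R L
  have h1 := IsAlgClosed.cardinal_eq_cardinal_transcendence_basis_of_aleph0_lt' _ hs hR hK
  have h2 := IsAlgClosed.cardinal_eq_cardinal_transcendence_basis_of_aleph0_lt' _ ht hR (hKL ▸ hK)
  obtain ⟨e⟩ := Cardinal.eq.1 (h1.symm.trans (hKL.trans h2))
  letI i1 := IsAlgClosed.isAlgClosure_of_transcendence_basis _ hs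
  letI i2 := IsAlgClosed.isAlgClosure_of_transcendence_basis _ ht
  let E : Algebra.adjoin R (Set.range ((↑) : s → K)) ≃ₐ[R] Algebra.adjoin R (Set.range ((↑) : t → L)) :=
    (hs.1.aevalEquiv.symm.trans (renameEquiv R e)).trans ht.1.aevalEquiv
  refine ⟨IsAlgClosure.equivOfEquiv K L E.toRingEquiv, fun r => ?_⟩
  have h3 := IsAlgClosure.equivOfEquiv_algebraMap K L E.toRingEquiv
    (algebraMap R (Algebra.adjoin R (Set.range ((↑) : s → K))) r)
  have h4 : E.toRingEquiv (algebraMap R (Algebra.adjoin R (Set.range ((↑) : s → K))) r) =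
      algebraMap R (Algebra.adjoin R (Set.range ((↑) : t → L))) r := E.commutes r
  rw [h4] at h3
  exact h3

/-- **isomorphic pairs of complex numbers are conjugate** -/
theorem exists_ringEquiv {x y x₀ y₀ : ℂ}
    (h : ∀ G : MvPolynomial (Fin 2) ℤ, ev G x y = 0 ↔ ev G x₀ y₀ = 0) :
    ∃ σ : ℂ ≃+* ℂ, σ x = x₀ ∧ σ y = y₀ := by
  set f : MvPolynomial (Fin 2) ℤ →+* ℂ := (aeval ![x, y] : MvPolynomial (Fin 2) ℤ →ₐ[ℤ] ℂ).toRingHom with hf
  set g : MvPolynomial (Fin 2) ℤ →+* ℂ := (aeval ![x₀, y₀] : MvPolynomial (Fin 2) ℤ →ₐ[ℤ] ℂ).toRingHom with hg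
  have hfev : ∀ G, f G = ev G x y := fun G => (ev_eq_aeval G x y).symm
  have hgev : ∀ G, g G = ev G x₀ y₀ := fun G => (ev_eq_aeval G x₀ y₀).symm
  set I := RingHom.ker f with hI
  have hgI : ∀ G ∈ I, g G = 0 := fun G hG => by
    rw [hgev, ← h, ← hfev]
    exact hG
  set φ : (MvPolynomial (Fin 2) ℤ ⧸ I) →+* ℂ := Ideal.Quotient.lift I f fun G hG => hG with hφ
  set ψ : (MvPolynomial (Fin 2) ℤ ⧸ I) →+* ℂ := Ideal.Quotient.lift I g hgI with hψ
  have hφi : Function.Injective φ := by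
    rw [injective_iff_map_eq_zero]
    intro q hq
    obtain ⟨G, rfl⟩ := Ideal.Quotient.mk_surjective q
    rw [hφ, Ideal.Quotient.lift_mk] at hq
    exact Ideal.Quotient.eq_zero_iff_mem.2 hq
  have hψi : Function.Injective ψ := by
    rw [injective_iff_map_eq_zero]
    intro q hq
    obtain ⟨G, rfl⟩ := Ideal.Quotient.mk_surjective q
    rw [hψ, Ideal.Quotient.lift_mk, hgev, ← h, ← hfev] at hq
    exact Ideal.Quotient.eq_zero_iff_mem.2 hq
  have hprime : I.IsPrime := RingHom.ker_isPrime f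
  have hR : #(MvPolynomial (Fin 2) ℤ ⧸ I) ≤ ℵ₀ := by
    refine (Cardinal.mk_le_of_surjective Ideal.Quotient.mk_surjective).trans ?_
    refine (MvPolynomial.cardinalMk_le_max (σ := Fin 2) (R := ℤ)).trans ?_
    simp
  letI a1 : Algebra (MvPolynomial (Fin 2) ℤ ⧸ I) ℂ := φ.toAlgebra
  have f1 : FaithfulSMul (MvPolynomial (Fin 2) ℤ ⧸ I) ℂ :=
    (faithfulSMul_iff_algebraMap_injective _ _).2 hφi
  let a2 : Algebra (MvPolynomial (Fin 2) ℤ ⧸ I) ℂ := ψ.toAlgebra
  have f2 : @FaithfulSMul (MvPolynomial (Fin 2) ℤ ⧸ I) ℂ a2.toSMul :=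
    (@faithfulSMul_iff_algebraMap_injective _ _ _ _ a2).2 hψi
  obtain ⟨σ, hσ⟩ := @exists_ringEquiv_over (MvPolynomial (Fin 2) ℤ ⧸ I) ℂ ℂ _ _ _ _ a1 a2 f1 f2 _ _ hR
    (by rw [Cardinal.mk_complex]; exact Cardinal.aleph0_lt_continuum) rfl
  have h5 : ∀ G, σ (f G) = g G := fun G => by
    have := hσ (Ideal.Quotient.mk I G)
    change σ (φ (Ideal.Quotient.mk I G)) = ψ (Ideal.Quotient.mk I G) at this
    rwa [hφ, hψ, Ideal.Quotient.lift_mk, Ideal.Quotient.lift_mk] at this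
  refine ⟨σ, ?_, ?_⟩
  · have := h5 (X 0)
    have e1 : f (X 0) = x := by simp [hf]
    have e2 : g (X 0) = x₀ := by simp [hg]
    rwa [e1, e2] at this
  · have := h5 (X 1)
    have e1 : f (X 1) = y := by simp [hf]
    have e2 : g (X 1) = y₀ := by simp [hg]
    rwa [e1, e2] at this

end Pool.Agent.Helper22.DL
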