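import Mathlib

/-! # Irreducible polynomials in two variables modulo large primes -/

open MvPolynomial

namespace Pool.Agent.Helper22.DL

/-- the algebraic conditions modulo `p` on a polynomial in two variables -/
structure AlgGood (p : ℕ) (H : MvPolynomial (Fin 2) ℤ) : Prop where
  /-- `X`, `Y` do not divide `H` modulo `p` -/
  bot₀ : ∃ m : Fin 2 →₀ ℕ, m 0 = 0 ∧ ¬ (p : ℤ) ∣ H.coeff m
  bot₁ : ∃ m : Fin 2 →₀ ℕ, m 1 = 0 ∧ ¬ (p : ℤ) ∣ H.coeff m
  /-- the degrees in `X` and in `Y` do not drop modulo `p` -/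
  top₀ : ∃ m : Fin 2 →₀ ℕ, m 0 = H.degreeOf 0 ∧ ¬ (p : ℤ) ∣ H.coeff m
  top₁ : ∃ m : Fin 2 →₀ ℕ, m 1 = H.degreeOf 1 ∧ ¬ (p : ℤ) ∣ H.coeff m
  /-- squarefree modulo `p` -/
  sqf₀ : ∃ (A B : MvPolynomial (Fin 2) ℤ) (Δ : Polynomial ℤ),
    A * H + B * pderiv 0 H = Polynomial.aeval (X 1 : MvPolynomial (Fin 2) ℤ) Δ ∧ ∃ k, ¬ (p : ℤ) ∣ Δ.coeff k
  sqf₁ : ∃ (A B : MvPolynomial (Fin 2) ℤ) (Δ : Polynomial ℤ),
    A * H + B * pderiv 1 H = Polynomial.aeval (X 0 : MvPolynomial (Fin 2) ℤ) Δ ∧ ∃ k, ¬ (p : ℤ) ∣ Δ.coeff k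
  /-- `p` is large -/
  large : 64 * (H.totalDegree + 1) ^ 2 ≤ p

section sqf

/-- clearing denominators -/
lemma exists_bezout {R : Type*} [CommRing R] [IsDomain R] [IsGCDMonoid R] [CharZero R]
    {P : Polynomial R} (hP : Irreducible P) (hd : P.natDegree ≠ 0) :
    ∃ (A B : Polynomial R) (d : R), d ≠ 0 ∧ A * P + B * P.derivative = Polynomial.C d := by
  classical
  set K := FractionRing R
  have hinj : Function.Injective (algebraMap R K) := IsFractionRing.injective R K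
  have : CharZero K := charZero_of_injective_algebraMap hinj
  have h1 : Irreducible (P.map (algebraMap R K)) :=
    ((hP.isPrimitive hd).irreducible_iff_irreducible_map_fraction_map (K := K)).1 hP
  have h2 : (P.map (algebraMap R K)).Separable := h1.separable
  obtain ⟨a, b, hab⟩ := h2
  obtain ⟨s, hs, hA⟩ := IsLocalization.integerNormalization_spec (nonZeroDivisors R) a
  obtain ⟨t, ht, hB⟩ := IsLocalization.integerNormalization_spec (nonZeroDivisors R) b
  set A := IsLocalization.integerNormalization (nonZeroDivisors R) a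
  set B := IsLocalization.integerNormalization (nonZeroDivisors R) b
  refine ⟨Polynomial.C t * A, Polynomial.C s * B, s * t,
    mul_ne_zero (nonZeroDivisors.ne_zero hs) (nonZeroDivisors.ne_zero ht), ?_⟩
  apply Polynomial.map_injective _ hinj
  rw [Polynomial.map_add, Polynomial.map_mul, Polynomial.map_mul, Polynomial.map_mul, Polynomial.map_mul,
    Polynomial.map_C, Polynomial.map_C, Polynomial.map_C, hA, hB, map_mul, Algebra.smul_def,
    Algebra.smul_def, ← Polynomial.derivative_map]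
  have e : ∀ r : R, (algebraMap R (Polynomial K)) r = Polynomial.C (algebraMap R K r) := fun r => rfl
  rw [e, e, Polynomial.C_mul]
  linear_combination (Polynomial.C (algebraMap R K s) * Polynomial.C (algebraMap R K t)) * hab

lemma derivative_finSucc (H : MvPolynomial (Fin 2) ℤ) :
    finSuccEquiv ℤ 1 (pderiv 0 H) = (finSuccEquiv ℤ 1 H).derivative := by
  induction H using MvPolynomial.induction_on with
  | C a => simp [finSuccEquiv_apply]
  | add p q hp hq => rw [map_add, map_add, map_add, hp, hq, Polynomial.derivative_add]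
  | mul_X p i hp =>
    rw [Derivation.leibniz, map_add, smul_eq_mul, smul_eq_mul, map_mul, map_mul, map_mul,
      Polynomial.derivative_mul, hp]
    induction i using Fin.cases with
    | zero =>
      rw [pderiv_X_self, finSuccEquiv_X_zero, map_one, Polynomial.derivative_X]
      ring
    | succ j =>
      rw [pderiv_X_of_ne (Fin.succ_ne_zero j), finSuccEquiv_X_succ, map_zero, Polynomial.derivative_C]
      ring

lemma symm_C (Δ : MvPolynomial (Fin 1) ℤ) :
    (finSuccEquiv ℤ 1).symm (Polynomial.C Δ) = rename Fin.succ Δ := by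
  rw [AlgEquiv.symm_apply_eq]
  induction Δ using MvPolynomial.induction_on with
  | C a => simp [finSuccEquiv_apply]
  | add p q hp hq => rw [map_add, map_add, map_add, hp, hq]
  | mul_X p i hp =>
    rw [map_mul, map_mul, map_mul, hp, rename_X, finSuccEquiv_X_succ]

lemma rename_eq_aeval (Δ : MvPolynomial (Fin 1) ℤ) :
    rename Fin.succ Δ = Polynomial.aeval (X 1 : MvPolynomial (Fin 2) ℤ)
      (aeval (fun _ => (Polynomial.X : Polynomial ℤ)) Δ) := by
  induction Δ using MvPolynomial.induction_on with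
  | C a => simp
  | add p q hp hq => rw [map_add, map_add, map_add, hp, hq]
  | mul_X p i hp =>
    rw [map_mul, map_mul, map_mul, hp, rename_X, aeval_X, Polynomial.aeval_X, Subsingleton.elim i 0]
    rfl

lemma exists_sqf₀ {H : MvPolynomial (Fin 2) ℤ} (hH : Irreducible H) (h0 : 0 < H.degreeOf 0) :
    ∃ (A B : MvPolynomial (Fin 2) ℤ) (Δ : Polynomial ℤ), Δ ≠ 0 ∧
      A * H + B * pderiv 0 H = Polynomial.aeval (X 1 : MvPolynomial (Fin 2) ℤ) Δ := by
  classical
  set P := finSuccEquiv ℤ 1 H with hP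
  have h1 : Irreducible P := (MulEquiv.irreducible_iff (finSuccEquiv ℤ 1).toMulEquiv).2 hH
  have h2 : P.natDegree ≠ 0 := by
    rw [hP, natDegree_finSuccEquiv]
    exact h0.ne'
  obtain ⟨A, B, d, hd, h3⟩ := exists_bezout h1 h2
  refine ⟨(finSuccEquiv ℤ 1).symm A, (finSuccEquiv ℤ 1).symm B,
    aeval (fun _ => (Polynomial.X : Polynomial ℤ)) d, fun h => ?_, ?_⟩
  · have h4 := rename_eq_aeval d
    rw [h, map_zero] at h4
    exact hd (rename_injective _ (Fin.succ_injective 1) (by rw [h4, map_zero]))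
  · rw [← rename_eq_aeval, ← symm_C, ← h3, map_add, map_mul, map_mul, hP, ← derivative_finSucc,
      AlgEquiv.symm_apply_apply, AlgEquiv.symm_apply_apply]

/-- the exchange of the variables -/
noncomputable def swapV : MvPolynomial (Fin 2) ℤ ≃ₐ[ℤ] MvPolynomial (Fin 2) ℤ :=
  renameEquiv ℤ (Equiv.swap 0 1)

lemma swapV_swapV (H : MvPolynomial (Fin 2) ℤ) : swapV (swapV H) = H := by
  change rename _ (rename _ H) = H
  rw [rename_rename]
  have : (⇑(Equiv.swap (0 : Fin 2) 1) ∘ ⇑(Equiv.swap (0 : Fin 2) 1)) = id := by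
    funext i
    simp
  rw [this, rename_id_apply]

lemma exists_sqf₁ {H : MvPolynomial (Fin 2) ℤ} (hH : Irreducible H) (h1 : 0 < H.degreeOf 1) :
    ∃ (A B : MvPolynomial (Fin 2) ℤ) (Δ : Polynomial ℤ), Δ ≠ 0 ∧
      A * H + B * pderiv 1 H = Polynomial.aeval (X 0 : MvPolynomial (Fin 2) ℤ) Δ := by
  have h2 : Irreducible (swapV H) := (MulEquiv.irreducible_iff swapV.toMulEquiv).2 hH
  have h3 : (swapV H).degreeOf 0 = H.degreeOf 1 := by
    have := degreeOf_rename_of_injective (p := H) (Equiv.swap (0 : Fin 2) 1).injective 1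
    rw [Equiv.swap_apply_right] at this
    exact this
  obtain ⟨A, B, Δ, hΔ, h4⟩ := exists_sqf₀ h2 (by rw [h3]; exact h1)
  refine ⟨swapV A, swapV B, Δ, hΔ, ?_⟩
  have h5 := congrArg swapV h4
  rw [map_add, map_mul, map_mul, swapV_swapV] at h5
  have h6 : swapV (pderiv 0 (swapV H)) = pderiv 1 H := by
    have := pderiv_rename (R := ℤ) (Equiv.swap (0 : Fin 2) 1).injective 1 H
    rw [Equiv.swap_apply_right] at this
    have h7 : pderiv 0 (swapV H) = swapV (pderiv 1 H) := this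
    rw [h7, swapV_swapV]
  rw [h6] at h5
  rw [h5]
  have h8 := Polynomial.aeval_algHom_apply (swapV : MvPolynomial (Fin 2) ℤ →ₐ[ℤ] MvPolynomial (Fin 2) ℤ)
    (X 1 : MvPolynomial (Fin 2) ℤ) Δ
  have h9 : swapV (X 1 : MvPolynomial (Fin 2) ℤ) = X 0 := by
    change rename _ (X 1) = _
    rw [rename_X, Equiv.swap_apply_right]
  change Polynomial.aeval (swapV (X 1)) Δ = swapV (Polynomial.aeval (X 1) Δ) at h8
  rw [← h8, h9]

end sqf

section bot

lemma exists_top {H : MvPolynomial (Fin 2) ℤ} (hH : H ≠ 0) (i : Fin 2) :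
    ∃ m : Fin 2 →₀ ℕ, m i = H.degreeOf i ∧ H.coeff m ≠ 0 := by
  classical
  obtain ⟨m, hm, h⟩ := Finset.exists_mem_eq_sup H.support (support_nonempty.2 hH) fun m => m i
  refine ⟨m, ?_, mem_support_iff.1 hm⟩
  rw [degreeOf_eq_sup]
  exact h.symm

lemma exists_bot {H : MvPolynomial (Fin 2) ℤ} (hH : Irreducible H) {i j : Fin 2} (hij : i ≠ j)
    (h1 : 0 < H.degreeOf j) : ∃ m : Fin 2 →₀ ℕ, m i = 0 ∧ H.coeff m ≠ 0 := by
  classical
  by_contra hcon
  push Not at hcon
  have hdvd : (X i : MvPolynomial (Fin 2) ℤ) ∣ H := by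
    rw [H.as_sum]
    refine Finset.dvd_sum fun m hm => ?_
    rw [X_dvd_monomial]
    right
    intro h0
    exact mem_support_iff.1 hm (hcon m h0)
  obtain ⟨Q, hQ⟩ := hdvd
  have hX : ¬ IsUnit (X i : MvPolynomial (Fin 2) ℤ) := by
    intro h
    obtain ⟨y, hy⟩ := h.exists_right_inv
    have h2 := congrArg (degreeOf i) hy
    have hy0 : y ≠ 0 := by
      rintro rfl
      simp at hy
    rw [degreeOf_mul_eq (X_ne_zero i) hy0, degreeOf_X, if_pos rfl, degreeOf_one] at h2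
    omega
  have hQu : IsUnit Q := (hH.2 hQ).resolve_left hX
  obtain ⟨y, hy⟩ := hQu.exists_right_inv
  have hQ0 : Q ≠ 0 := hQu.ne_zero
  have hy0 : y ≠ 0 := by
    rintro rfl
    simp at hy
  have h2 := congrArg (degreeOf j) hy
  rw [degreeOf_mul_eq hQ0 hy0, degreeOf_one] at h2
  rw [hQ, degreeOf_mul_eq (X_ne_zero i) hQ0, degreeOf_X, if_neg (Ne.symm hij)] at h1
  omega

end bot

/-- **irreducible polynomials modulo large primes** -/
theorem good_of_irreducible {H : MvPolynomial (Fin 2) ℤ} (hH : Irreducible H)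
    (h0 : 0 < H.degreeOf 0) (h1 : 0 < H.degreeOf 1) :
    ∃ M : ℕ, 0 < M ∧ ∀ p : ℕ, p.Prime → ¬ p ∣ M → AlgGood p H := by
  obtain ⟨b0, hb0, cb0⟩ := exists_bot hH (i := 0) (j := 1) (by decide) h1
  obtain ⟨b1, hb1, cb1⟩ := exists_bot hH (i := 1) (j := 0) (by decide) h0
  obtain ⟨t0, ht0, ct0⟩ := exists_top hH.ne_zero 0
  obtain ⟨t1, ht1, ct1⟩ := exists_top hH.ne_zero 1
  obtain ⟨A0, B0, D0, hD0, hs0⟩ := exists_sqf₀ hH h0
  obtain ⟨A1, B1, D1, hD1, hs1⟩ := exists_sqf₁ hH h1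
  obtain ⟨k0, hk0⟩ : ∃ k, D0.coeff k ≠ 0 := by
    by_contra hcon
    push Not at hcon
    exact hD0 (Polynomial.ext fun k => by rw [hcon k, Polynomial.coeff_zero])
  obtain ⟨k1, hk1⟩ : ∃ k, D1.coeff k ≠ 0 := by
    by_contra hcon
    push Not at hcon
    exact hD1 (Polynomial.ext fun k => by rw [hcon k, Polynomial.coeff_zero])
  set m : ℤ := H.coeff b0 * H.coeff b1 * H.coeff t0 * H.coeff t1 * D0.coeff k0 * D1.coeff k1 with hm
  have hm0 : m ≠ 0 := by
    rw [hm]
    exact mul_ne_zero (mul_ne_zero (mul_ne_zero (mul_ne_zero (mul_ne_zero cb0 cb1) ct0) ct1) hk0) hk1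
  refine ⟨m.natAbs * (64 * (H.totalDegree + 1) ^ 2).factorial,
    Nat.mul_pos (Int.natAbs_pos.2 hm0) (Nat.factorial_pos _), fun p hp hpM => ?_⟩
  have h2 : ¬ (p : ℤ) ∣ m := fun h => hpM ((Int.natCast_dvd.1 h).mul_right _)
  have h3 : ∀ a b : ℤ, m = a * b → ¬ (p : ℤ) ∣ a := fun a b hab h =>
    h2 (by rw [hab]; exact h.mul_right b)
  have hlarge : 64 * (H.totalDegree + 1) ^ 2 < p := by
    by_contra hcon
    push Not at hcon
    exact hpM ((Nat.dvd_factorial hp.pos hcon).mul_left _)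
  exact ⟨⟨b0, hb0, h3 _ (H.coeff b1 * H.coeff t0 * H.coeff t1 * D0.coeff k0 * D1.coeff k1) (by rw [hm]; ring)⟩,
    ⟨b1, hb1, h3 _ (H.coeff b0 * H.coeff t0 * H.coeff t1 * D0.coeff k0 * D1.coeff k1) (by rw [hm]; ring)⟩,
    ⟨t0, ht0, h3 _ (H.coeff b0 * H.coeff b1 * H.coeff t1 * D0.coeff k0 * D1.coeff k1) (by rw [hm]; ring)⟩,
    ⟨t1, ht1, h3 _ (H.coeff b0 * H.coeff b1 * H.coeff t0 * D0.coeff k0 * D1.coeff k1) (by rw [hm]; ring)⟩,
    ⟨A0, B0, D0, hs0, k0, h3 _ (H.coeff b0 * H.coeff b1 * H.coeff t0 * H.coeff t1 * D1.coeff k1)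
      (by rw [hm]; ring)⟩,
    ⟨A1, B1, D1, hs1, k1, h3 _ (H.coeff b0 * H.coeff b1 * H.coeff t0 * H.coeff t1 * D0.coeff k0)
      (by rw [hm]; ring)⟩, hlarge.le⟩

end Pool.Agent.Helper22.DL
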