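import Pool.Agent.Helper22.DL.ET

/-! # The algebraic relation between two monomials in the coordinates of a generic point -/

open MvPolynomial Finset

namespace Pool.Agent.Helper22.DL
open Pool.Agent.Helper20.DL Pool.Agent.Helper11.LC

variable {n : ℕ}

lemma corner_pair_apply (f : MvPolynomial (Fin n) ℂ) {k₀ k : Fin n} :
    corner f {k₀, k} k₀ = f.degreeOf k₀ ∧ corner f {k₀, k} k = f.degreeOf k := by
  classical
  have h : ∀ j, corner f {k₀, k} j = if j ∈ ({k₀, k} : Finset (Fin n)) then f.degreeOf j else 0 :=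
    fun j => rfl
  constructor
  · rw [h, if_pos (by simp)]
  · rw [h, if_pos (by simp)]

/-- the coordinates are algebraic over the ring generated by one of them -/
lemma alg_of_corner {f : MvPolynomial (Fin n) ℂ} {k₀ k : Fin n} (hvars : f.vars ⊆ {k₀, k})
    (hne : k₀ ≠ k) (halg : ∀ m, IsAlgebraic ℚ (f.coeff m)) (hcor : f.coeff (corner f {k₀, k}) ≠ 0)
    {z : Fin n → ℂ} (hz : eval z f = 0) (ht : Transcendental ℤ (z k₀)) :
    IsAlgebraic (Algebra.adjoin ℤ {z k₀}) (z k) := by
  classical
  set t := z k₀ with ht'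
  set R₀ := Algebra.adjoin ℤ {t} with hR₀
  have halg' : ∀ m, IsAlgebraic ℤ (f.coeff m) := fun m =>
    (IsFractionRing.isAlgebraic_iff ℤ ℚ ℂ).2 (halg m)
  have htR : t ∈ R₀ := Algebra.subset_adjoin (Set.mem_singleton t)
  -- the polynomial over the algebraic closure
  have hmem : ∀ m : Fin n →₀ ℕ, f.coeff m * t ^ m k₀ ∈ Subalgebra.algebraicClosure R₀ ℂ := fun m =>
    mul_mem ((halg' m).extendScalars (FaithfulSMul.algebraMap_injective ℤ R₀) :
      IsAlgebraic R₀ (f.coeff m)) (pow_mem (isAlgebraic_algebraMap (⟨t, htR⟩ : R₀)) _)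
  set P : Polynomial (Subalgebra.algebraicClosure R₀ ℂ) :=
    ∑ m ∈ f.support, Polynomial.C ⟨f.coeff m * t ^ m k₀, hmem m⟩ * Polynomial.X ^ m k with hP
  have hroot : Polynomial.aeval (z k) P = 0 := by
    rw [hP, map_sum]
    rw [eval_eq'] at hz
    rw [← hz]
    refine sum_congr rfl fun m hm => ?_
    rw [map_mul, map_pow, Polynomial.aeval_C, Polynomial.aeval_X]
    have e1 : ∏ i, z i ^ m i = z k₀ ^ m k₀ * z k ^ m k := by
      rw [← mul_prod_erase univ (fun j => z j ^ m j) (mem_univ k₀),
        ← mul_prod_erase (univ.erase k₀) (fun j => z j ^ m j) (mem_erase.2 ⟨hne.symm, mem_univ k⟩),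
        Finset.prod_eq_one, mul_one]
      intro j hj
      rw [mem_erase, mem_erase] at hj
      have : m j = 0 := by
        by_contra hne'
        have h1 := hvars ((mem_vars_iff_mem_support j).2 ⟨m, hm, Finsupp.mem_support_iff.2 hne'⟩)
        rw [mem_insert, mem_singleton] at h1
        rcases h1 with h1 | h1
        · exact hj.2.1 h1
        · exact hj.1 h1
      rw [this, pow_zero]
    rw [e1, ← mul_assoc]
    rfl
  have hP0 : P ≠ 0 := by
    intro h0
    -- the coefficient of the highest power
    have h1 := congrArg (fun Q => algebraMap (Subalgebra.algebraicClosure R₀ ℂ) ℂ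
      (Polynomial.coeff Q (f.degreeOf k))) h0
    simp only [Polynomial.coeff_zero, map_zero] at h1
    have h2 : algebraMap (Subalgebra.algebraicClosure R₀ ℂ) ℂ (P.coeff (f.degreeOf k)) =
        ∑ m ∈ f.support with m k = f.degreeOf k, f.coeff m * t ^ m k₀ := by
      rw [hP, Polynomial.finsetSum_coeff, map_sum, sum_filter]
      refine sum_congr rfl fun m _ => ?_
      rw [Polynomial.coeff_C_mul, Polynomial.coeff_X_pow]
      by_cases hm : m k = f.degreeOf k
      · rw [if_pos hm.symm, mul_one, if_pos hm]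
        rfl
      · rw [if_neg (fun h => hm h.symm), mul_zero, map_zero, if_neg hm]
    rw [h2] at h1
    -- it is a polynomial in `t` over the algebraic numbers
    have hmem' : ∀ m, f.coeff m ∈ Subalgebra.algebraicClosure ℤ ℂ := fun m => halg' m
    set Q : Polynomial (Subalgebra.algebraicClosure ℤ ℂ) :=
      ∑ m ∈ f.support with m k = f.degreeOf k, Polynomial.C ⟨f.coeff m, hmem' m⟩ * Polynomial.X ^ m k₀
      with hQ
    have hQt : Polynomial.aeval t Q = 0 := by
      rw [hQ, map_sum, ← h1]
      refine sum_congr rfl fun m _ => ?_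
      rw [map_mul, map_pow, Polynomial.aeval_C, Polynomial.aeval_X]
      rfl
    obtain ⟨c0, c1⟩ := corner_pair_apply f (k₀ := k₀) (k := k)
    have hQ0 : Q ≠ 0 := by
      intro h
      have h3 := congrArg (fun S => algebraMap (Subalgebra.algebraicClosure ℤ ℂ) ℂ
        (Polynomial.coeff S (f.degreeOf k₀))) h
      simp only [Polynomial.coeff_zero, map_zero] at h3
      rw [hQ, Polynomial.finsetSum_coeff, map_sum, Finset.sum_eq_single (corner f {k₀, k})] at h3
      · rw [Polynomial.coeff_C_mul, Polynomial.coeff_X_pow, if_pos c0.symm, mul_one] at h3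
        exact hcor h3
      · intro m hm hmne
        rw [Polynomial.coeff_C_mul, Polynomial.coeff_X_pow, if_neg, mul_zero, map_zero]
        intro h4
        apply hmne
        rw [mem_filter] at hm
        ext j
        by_cases hj : j ∈ ({k₀, k} : Finset (Fin n))
        · rw [mem_insert, mem_singleton] at hj
          rcases hj with rfl | rfl
          · rw [c0, h4]
          · rw [c1, hm.2]
        · have h5 : m j = 0 := by
            by_contra hne'
            exact hj (hvars ((mem_vars_iff_mem_support j).2 ⟨m, hm.1, Finsupp.mem_support_iff.2 hne'⟩))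
          have h6 : corner f {k₀, k} j = if j ∈ ({k₀, k} : Finset (Fin n)) then f.degreeOf j else 0 := rfl
          rw [h5, h6, if_neg hj]
      · intro h4
        exfalso
        apply h4
        rw [mem_filter]
        exact ⟨mem_support_iff.2 hcor, c1⟩
    have h7 : IsAlgebraic (Subalgebra.algebraicClosure ℤ ℂ) t := ⟨Q, hQ0, hQt⟩
    exact ht (h7.restrictScalars ℤ)
  have h8 : IsAlgebraic (Subalgebra.algebraicClosure R₀ ℂ) (z k) := ⟨P, hP0, hroot⟩
  exact h8.restrictScalars R₀

/-- two numbers which are algebraic over `ℤ[t]` are algebraically dependent -/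
lemma dep_of_alg {t x y : ℂ} (hx : IsAlgebraic (Algebra.adjoin ℤ {t}) x)
    (hy : IsAlgebraic (Algebra.adjoin ℤ {t}) y) : ∃ G : MvPolynomial (Fin 2) ℤ, G ≠ 0 ∧ ev G x y = 0 := by
  by_contra hcon
  push Not at hcon
  have hind : AlgebraicIndependent ℤ ![x, y] := by
    rw [algebraicIndependent_iff]
    intro G hG
    by_contra hne
    exact hcon G hne (by rw [ev_eq_aeval]; exact hG)
  have hinj := hind.injective
  have hI : (AlgebraicIndependent.matroid ℤ ℂ).Indep (Set.range ![x, y]) := by
    rw [AlgebraicIndependent.matroid_indep_iff]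
    exact hind.coe_range
  have hsub : Set.range ![x, y] ⊆ (AlgebraicIndependent.matroid ℤ ℂ).closure {t} := by
    rw [AlgebraicIndependent.matroid_closure_eq]
    rintro _ ⟨i, rfl⟩
    fin_cases i
    · exact hx
    · exact hy
  have h1 := hI.encard_le_eRk_of_subset hsub
  rw [Matroid.eRk_closure_eq] at h1
  have h2 := h1.trans (Matroid.eRk_le_encard _ _)
  rw [Set.encard_singleton] at h2
  have h3 : (Set.range ![x, y]).encard = 2 := by
    rw [← Set.image_univ, hinj.encard_image]
    simp
  rw [h3] at h2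
  exact absurd h2 (by decide)

/-- **the relation between two monomials** -/
theorem exists_dependence {Z : Set (Fin n → ℂ)} (hcor : CornerPos 1 Z) {zs : Fin n → ℂ}
    (hz : zs ∈ Z) (htr : ∀ k, Transcendental ℤ (zs k)) (k₀ : Fin n) (a b : Fin n → ℤ) :
    ∃ G : MvPolynomial (Fin 2) ℤ, G ≠ 0 ∧ ev G (∏ i, zs i ^ a i) (∏ i, zs i ^ b i) = 0 := by
  classical
  have hk : ∀ k, zs k ∈ Subalgebra.algebraicClosure (Algebra.adjoin ℤ {zs k₀}) ℂ := by
    intro k
    by_cases h : k₀ = k
    · subst h
      exact isAlgebraic_algebraMap (⟨zs k₀, Algebra.subset_adjoin (Set.mem_singleton _)⟩ :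
        Algebra.adjoin ℤ {zs k₀})
    · obtain ⟨f, h1, h2, h3, h4⟩ := hcor {k₀, k} (by rw [card_pair h])
      exact alg_of_corner h1 h h2 (h3 _ subset_rfl) (h4 zs hz) (htr k₀)
  have hprod : ∀ c : Fin n → ℤ, IsAlgebraic (Algebra.adjoin ℤ {zs k₀}) (∏ i, zs i ^ c i) := by
    intro c
    have : ∏ i, zs i ^ c i ∈ Subalgebra.algebraicClosure (Algebra.adjoin ℤ {zs k₀}) ℂ := by
      refine prod_mem fun i _ => ?_
      rcases Int.eq_nat_or_neg (c i) with ⟨m, h | h⟩
      · rw [h, zpow_natCast]
        exact pow_mem (hk i) m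
      · rw [h, zpow_neg, zpow_natCast]
        exact (show IsAlgebraic (Algebra.adjoin ℤ {zs k₀}) (zs i ^ m) from pow_mem (hk i) m).inv
    exact this
  exact dep_of_alg (hprod a) (hprod b)

end Pool.Agent.Helper22.DL
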