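import Pool.Agent.Helper22.DL.Emb
import Pool.Agent.Helper69.DL.Point
import Pool.Agent.Helper36.DL.Final

/-! # Dilates: conjugates of a generic point -/

open MvPolynomial Finset

namespace Pool.Agent.Helper22.DL
open Pool.Agent.Helper20.DL Pool.Agent.Helper11.LC Pool.Agent.Helper20.ZD Pool.Agent.Helper36.DL
  Pool.Agent.Helper69.DL

variable {n : ℕ}

/-- **(P) for all conjugates of the points of `Z`** -/
theorem conj_unit {Z : Set (Fin n → ℂ)} (hcor : CornerPos 1 Z) :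
    ∃ m : ℕ, 0 < m ∧ ∀ v : AbsoluteValue ℂ ℝ, IsNonarchimedean v → v (m : ℂ) = 1 →
      ∀ (σ : ℂ ≃+* ℂ) (z : Fin n → ℂ), z ∈ Z → ∀ i j, i ≠ j → v (σ (z i)) = 1 ∨ v (σ (z j)) = 1 := by
  classical
  obtain ⟨m, hm, h⟩ := corners_dilate hcor
  refine ⟨m, hm, fun v hv hvm σ z hz i j hij => ?_⟩
  set v' : AbsoluteValue ℂ ℝ := v.comp (f := (σ : ℂ →+* ℂ)) σ.injective with hv'
  have h1 : ∀ x, v' x = v (σ x) := fun x => rfl
  have hn : IsNonarchimedean v' := fun x y => by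
    rw [h1, h1, h1, map_add]
    exact hv _ _
  have h2 : v' (m : ℂ) = 1 := by rw [h1, map_natCast, hvm]
  by_contra hcon
  push Not at hcon
  have h3 := card_le_of_corners hn (h v' hn h2 fun _ => 1) (x := z) (by
    change (fun i => z i / 1) ∈ Z
    have : (fun i => z i / 1) = z := by funext i; rw [div_one]
    rw [this]
    exact hz) (J := {i, j}) (by
      intro k hk
      rw [map_one, h1]
      rw [mem_insert, mem_singleton] at hk
      rcases hk with rfl | rfl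
      · exact hcon.1
      · exact hcon.2)
  rw [card_pair hij] at h3
  omega

lemma map_prod_zpow (σ : ℂ ≃+* ℂ) (z : Fin n → ℂ) (a : Fin n → ℤ) :
    σ (∏ i, z i ^ a i) = ∏ i, (σ (z i)) ^ a i := by
  rw [map_prod]
  exact prod_congr rfl fun i _ => map_zpow₀ σ _ _

/-- **(E)** -/
theorem embed_of_point {Z : Set (Fin n → ℂ)} (hcor : CornerPos 1 Z) {zs : Fin n → ℂ} (hz : zs ∈ Z)
    (hz0 : ∀ i, zs i ≠ 0) (a b : Fin n → ℤ) {H : MvPolynomial (Fin 2) ℤ} (hH : Irreducible H)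
    (h : ev H (∏ i, zs i ^ a i) (∏ i, zs i ^ b i) = 0)
    (ht : Transcendental ℤ (∏ i, zs i ^ a i) ∨ Transcendental ℤ (∏ i, zs i ^ b i)) :
    ∃ M : ℕ, 0 < M ∧ ∀ p : ℕ, p.Prime → ¬ p ∣ M → ∀ v : AbsoluteValue ℂ ℝ, IsNonarchimedean v →
      v (p : ℂ) < 1 → ∀ x₀ y₀ : ℂ, ev H x₀ y₀ = 0 → (Transcendental ℤ x₀ ∨ Transcendental ℤ y₀) →
        ∃ z : Fin n → ℂ, (∀ i, z i ≠ 0) ∧ ∏ i, z i ^ a i = x₀ ∧ ∏ i, z i ^ b i = y₀ ∧
          ∀ i j, i ≠ j → v (z i) = 1 ∨ v (z j) = 1 := by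
  obtain ⟨M, hM, h1⟩ := conj_unit hcor
  refine ⟨M, hM, fun p hp hpM v hv hvp x₀ y₀ h₀ ht₀ => ?_⟩
  obtain ⟨σ, hσx, hσy⟩ := exists_ringEquiv (x := ∏ i, zs i ^ a i) (y := ∏ i, zs i ^ b i)
    (x₀ := x₀) (y₀ := y₀) fun G => by
      constructor
      · intro hG
        obtain ⟨Q, rfl⟩ := dvd_of_irreducible hH h ht G hG
        rw [ev_mul, h₀, zero_mul]
      · intro hG
        obtain ⟨Q, rfl⟩ := dvd_of_irreducible hH h₀ ht₀ G hG
        rw [ev_mul, h, zero_mul]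
  refine ⟨fun i => σ (zs i), fun i hi => hz0 i (by
    rw [← map_zero σ] at hi
    exact σ.injective hi), ?_, ?_, fun i j hij => h1 v hv (Helper36.DL.v_nat_eq_one hv hp hvp hpM) σ zs hz i j hij⟩
  · rw [← map_prod_zpow, hσx]
  · rw [← map_prod_zpow, hσy]

/-- two transcendental numbers are conjugate -/
lemma exists_conj_transcendental {x x₀ : ℂ} (hx : Transcendental ℤ x) (hx₀ : Transcendental ℤ x₀) :
    ∃ σ : ℂ ≃+* ℂ, σ x = x₀ := by
  -- the irreducible polynomial is the first variable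
  have hX : Irreducible (X 0 : MvPolynomial (Fin 2) ℤ) := (X_prime (i := 0)).irreducible
  have h0 : ∀ y : ℂ, ev (X 0 : MvPolynomial (Fin 2) ℤ) 0 y = 0 := fun y => by
    rw [ev_eq_aeval]; simp
  obtain ⟨σ, -, h⟩ := exists_ringEquiv (x := 0) (y := x) (x₀ := 0) (y₀ := x₀) fun G => by
    constructor
    · intro hG
      obtain ⟨Q, rfl⟩ := dvd_of_irreducible hX (h0 x) (Or.inr hx) G hG
      rw [ev_mul, h0, zero_mul]
    · intro hG
      obtain ⟨Q, rfl⟩ := dvd_of_irreducible hX (h0 x₀) (Or.inr hx₀) G hG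
      rw [ev_mul, h0, zero_mul]
  exact ⟨σ, h⟩

/-- **(T)** a nontrivial monomial in the coordinates of a point of `Z` with transcendental coordinates
is transcendental -/
theorem transcendental_monomial {Z : Set (Fin n → ℂ)} (hcor : CornerPos 1 Z) {zs : Fin n → ℂ}
    (hz : zs ∈ Z) (htr : ∀ k, Transcendental ℤ (zs k)) {c : Fin n → ℤ} {k : Fin n} (hck : c k ≠ 0) :
    Transcendental ℤ (∏ i, zs i ^ c i) := by
  classical
  intro halg
  have hz0 : ∀ i, zs i ≠ 0 := fun i h => htr i (h ▸ isAlgebraic_zero)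
  set α := ∏ i, zs i ^ c i with hα
  have hα0 : α ≠ 0 := prod_ne_zero_iff.2 fun i _ => zpow_ne_zero _ (hz0 i)
  obtain ⟨m₁, hm₁, h1⟩ := conj_unit hcor
  obtain ⟨m₂, hm₂, h2⟩ := alg_unit ((IsFractionRing.isAlgebraic_iff ℤ ℚ ℂ).1 halg)
  obtain ⟨p, hpm, hp⟩ := Nat.exists_infinite_primes (m₁ * m₂ + 1)
  have hpM : ¬ p ∣ m₁ * m₂ := fun h => by
    have := Nat.le_of_dvd (Nat.mul_pos hm₁ hm₂) h
    omega
  obtain ⟨v, hv, hvp⟩ := exists_place hp
  have hvp1 : v (p : ℂ) < 1 := by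
    rw [hvp]
    exact inv_lt_one_of_one_lt₀ (by exact_mod_cast hp.one_lt)
  have u1 : v (m₁ : ℂ) = 1 := Helper36.DL.v_nat_eq_one hv hp hvp1 fun h => hpM (h.mul_right _)
  have u2 : v (m₂ : ℂ) = 1 := Helper36.DL.v_nat_eq_one hv hp hvp1 fun h => hpM (h.mul_left _)
  obtain ⟨τ, hτ0, hτ1, hτ⟩ := exists_tau hv hp hvp1 (α := 1) one_ne_zero (u := 1) one_ne_zero
    (r := 0) le_rfl one_pos
  rw [one_mul, zpow_one] at hτ
  obtain ⟨σ, hσ⟩ := exists_conj_transcendental (htr k) hτ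
  -- the other coordinates are units
  have hu : ∀ i, i ≠ k → v (σ (zs i)) = 1 := by
    intro i hi
    rcases h1 v hv u1 σ zs hz i k hi with h | h
    · exact h
    · rw [hσ] at h
      exact absurd h hτ1.ne
  -- the value of the monomial
  have e1 : v (σ α) = v τ ^ c k := by
    rw [hα, map_prod_zpow, map_prod, ← mul_prod_erase univ _ (mem_univ k), Finset.prod_eq_one, mul_one,
      map_zpow₀, hσ]
    intro i hi
    rw [map_zpow₀, hu i (ne_of_mem_erase hi), one_zpow]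
  -- it is a unit
  set v' : AbsoluteValue ℂ ℝ := v.comp (f := (σ : ℂ →+* ℂ)) σ.injective with hv'
  have h3 : ∀ x, v' x = v (σ x) := fun x => rfl
  have hn : IsNonarchimedean v' := fun x y => by
    rw [h3, h3, h3, map_add]
    exact hv _ _
  have e2 := (h2 v' hn (by rw [h3, map_natCast, u2])).2 hα0
  rw [h3, e1] at e2
  have h4 : v τ = 1 := (zpow_eq_one_iff_of_ne_zero₀ hck).1 e2 |>.resolve_right fun h => by
    rw [h.1] at hτ0
    linarith
  exact hτ1.ne h4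

/-- **(T)** in the form of `noCoset_of_data` -/
theorem transcendental_pair {Z : Set (Fin n → ℂ)} (hcor : CornerPos 1 Z) {zs : Fin n → ℂ}
    (hz : zs ∈ Z) (htr : ∀ k, Transcendental ℤ (zs k)) {a b : Fin n → ℤ}
    (hab : ∀ s t : ℤ, (∀ i, s * a i + t * b i = 0) → s = 0 ∧ t = 0) (s t : ℤ) (hst : s ≠ 0 ∨ t ≠ 0) :
    Transcendental ℤ ((∏ i, zs i ^ a i) ^ s * (∏ i, zs i ^ b i) ^ t) := by
  have hz0 : ∀ i, zs i ≠ 0 := fun i h => htr i (h ▸ isAlgebraic_zero)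
  obtain ⟨k, hk⟩ : ∃ k, s * a k + t * b k ≠ 0 := by
    by_contra hcon
    push Not at hcon
    obtain ⟨h1, h2⟩ := hab s t hcon
    rcases hst with h | h
    · exact h h1
    · exact h h2
  have h1 := transcendental_monomial hcor hz htr (c := fun i => s * a i + t * b i) hk
  have h2 : ∏ i, zs i ^ (s * a i + t * b i) = (∏ i, zs i ^ a i) ^ s * (∏ i, zs i ^ b i) ^ t := by
    rw [← prod_zpow, ← prod_zpow, ← prod_mul_distrib]
    refine prod_congr rfl fun i _ => ?_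
    rw [zpow_add₀ (hz0 i), mul_comm s, mul_comm t, zpow_mul, zpow_mul]
  rwa [h2] at h1

end Pool.Agent.Helper22.DL
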