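import Pool.Agent.Helper22.DL.Dep
import Pool.Agent.Helper22.DL.Gen
import Pool.Agent.Helper22.DL.Holds
import Pool.Agent.Helper69.DL.Integrate

/-! # The relations between monomials in the coordinates of a curve in general position -/

open MvPolynomial Finset

namespace Pool.Agent.Helper22.DL
open Pool.Agent.Helper11.ZP Pool.Agent.Helper20.DL Pool.Agent.Helper69.DL Pool.Agent.Helper11.LC

variable {n : ℕ}

/-- **the relations** -/
theorem hasRel {Z : Set (Fin n → ℂ)} (hZ : IsSubvariety Z) (h1 : dim Z = 1)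
    (hc : ∀ (i : Fin n) (c : ℂ), ∃ z ∈ Z, z i ≠ c) (hcor : CornerPos 1 Z) : HasRel Z := by
  intro a b hab
  rcases isEmpty_or_nonempty (Fin n) with hn | ⟨⟨k₀⟩⟩
  · exact absurd (hab 1 0 fun i => hn.elim i).1 one_ne_zero
  obtain ⟨zs, hz, htr, hgen⟩ := exists_generic hZ h1 hc k₀
  have hz0 : ∀ i, zs i ≠ 0 := fun i h => htr i (h ▸ isAlgebraic_zero)
  have hT := transcendental_pair hcor hz htr hab
  set x := ∏ i, zs i ^ a i with hx
  set y := ∏ i, zs i ^ b i with hy
  have hxt : Transcendental ℤ x := by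
    have := hT 1 0 (Or.inl one_ne_zero)
    rwa [zpow_one, zpow_zero, mul_one] at this
  have hyt : Transcendental ℤ y := by
    have := hT 0 1 (Or.inr one_ne_zero)
    rwa [zpow_one, zpow_zero, one_mul] at this
  obtain ⟨G, hG0, hG⟩ := exists_dependence hcor hz htr k₀ a b
  obtain ⟨H, hH, -, -, hxy⟩ := exists_irreducible hxt hyt hG0 hG
  obtain ⟨M, hM, hE⟩ := embed_of_point hcor hz hz0 a b hH hxy (Or.inl hxt)
  obtain ⟨M', hM', hgood⟩ := goodRel_of_data a b hH hM hxy hT
    (fun x₀ y₀ h0 ht G hG => dvd_of_irreducible hH h0 ht G hG) hE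
  exact ⟨H, M', hM', holds_of_generic hz0 hgen hxy, hgood⟩

end Pool.Agent.Helper22.DL
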