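import Pool.Agent.Helper22.DL.Alg
import Pool.Agent.Helper20.DL.Digits

/-! # The relation of two numbers -/

open MvPolynomial

namespace Pool.Agent.Helper22.DL
open Pool.Agent.Helper20.DL

/-- clearing denominators -/
lemma exists_bezout' {R : Type*} [CommRing R] [IsDomain R] [IsGCDMonoid R]
    {P Q : Polynomial R} (hP : Irreducible P) (hd : P.natDegree ≠ 0) (hPQ : ¬ P ∣ Q) :
    ∃ (A B : Polynomial R) (d : R), d ≠ 0 ∧ A * P + B * Q = Polynomial.C d := by
  classical
  set K := FractionRing R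
  have hinj : Function.Injective (algebraMap R K) := IsFractionRing.injective R K
  have hprim := hP.isPrimitive hd
  have h1 : Irreducible (P.map (algebraMap R K)) :=
    (hprim.irreducible_iff_irreducible_map_fraction_map (K := K)).1 hP
  have h2 : IsCoprime (P.map (algebraMap R K)) (Q.map (algebraMap R K)) := by
    rw [h1.coprime_iff_not_dvd]
    intro hdvd
    apply hPQ
    obtain ⟨g, hg⟩ := hdvd
    have h3 : P.map (algebraMap R K) * g ∈ Polynomial.lifts (algebraMap R K) := ⟨Q, hg⟩
    obtain ⟨g', hg'⟩ := hprim.map_mul_mem_lifts_iff.1 h3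
    refine ⟨g', Polynomial.map_injective _ hinj ?_⟩
    have hg'' : g'.map (algebraMap R K) = g := hg'
    rw [Polynomial.map_mul, hg'', hg]
  obtain ⟨a, b, hab⟩ := h2
  obtain ⟨s, hs, hA⟩ := IsLocalization.integerNormalization_spec (nonZeroDivisors R) a
  obtain ⟨t, ht, hB⟩ := IsLocalization.integerNormalization_spec (nonZeroDivisors R) b
  set A := IsLocalization.integerNormalization (nonZeroDivisors R) a
  set B := IsLocalization.integerNormalization (nonZeroDivisors R) b
  refine ⟨Polynomial.C t * A, Polynomial.C s * B, s * t,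
    mul_ne_zero (nonZeroDivisors.ne_zero hs) (nonZeroDivisors.ne_zero ht), ?_⟩
  apply Polynomial.map_injective _ hinj
  rw [Polynomial.map_add, Polynomial.map_mul, Polynomial.map_mul, Polynomial.map_mul, Polynomial.map_mul,
    Polynomial.map_C, Polynomial.map_C, Polynomial.map_C, hA, hB, map_mul, Algebra.smul_def,
    Algebra.smul_def]
  have e : ∀ r : R, (algebraMap R (Polynomial K)) r = Polynomial.C (algebraMap R K r) := fun r => rfl
  rw [e, e, Polynomial.C_mul]
  linear_combination (Polynomial.C (algebraMap R K s) * Polynomial.C (algebraMap R K t)) * hab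

lemma ev_aeval₁ (D : Polynomial ℤ) (x y : ℂ) :
    ev (Polynomial.aeval (X 1 : MvPolynomial (Fin 2) ℤ) D) x y = Polynomial.aeval y D := by
  rw [ev_eq_aeval]
  have h := Polynomial.aeval_algHom_apply (aeval ![x, y] : MvPolynomial (Fin 2) ℤ →ₐ[ℤ] ℂ)
    (X 1 : MvPolynomial (Fin 2) ℤ) D
  rw [aeval_X] at h
  exact h.symm

lemma ev_mul (H G : MvPolynomial (Fin 2) ℤ) (x y : ℂ) : ev (H * G) x y = ev H x y * ev G x y := by
  rw [ev_eq_aeval, ev_eq_aeval, ev_eq_aeval, map_mul]

lemma ev_add (H G : MvPolynomial (Fin 2) ℤ) (x y : ℂ) : ev (H + G) x y = ev H x y + ev G x y := by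
  rw [ev_eq_aeval, ev_eq_aeval, ev_eq_aeval, map_add]

lemma ev_swapV (H : MvPolynomial (Fin 2) ℤ) (x y : ℂ) : ev (swapV H) x y = ev H y x := by
  rw [ev_eq_aeval, ev_eq_aeval]
  change aeval ![x, y] (rename _ H) = _
  rw [aeval_rename]
  congr 1
  congr 1
  funext i
  fin_cases i <;> simp

/-- a polynomial of degree zero in the first variable is a polynomial in the second -/
lemma exists_of_degree {H : MvPolynomial (Fin 2) ℤ} (h : H.degreeOf 0 = 0) :
    ∃ D : Polynomial ℤ, H = Polynomial.aeval (X 1 : MvPolynomial (Fin 2) ℤ) D := by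
  have h1 : (finSuccEquiv ℤ 1 H).natDegree = 0 := by rw [natDegree_finSuccEquiv, h]
  obtain ⟨c, hc⟩ := Polynomial.natDegree_eq_zero.1 h1
  refine ⟨aeval (fun _ => (Polynomial.X : Polynomial ℤ)) c, ?_⟩
  rw [← rename_eq_aeval, ← symm_C, hc, AlgEquiv.symm_apply_apply]

lemma degree_pos {H : MvPolynomial (Fin 2) ℤ} (hH : H ≠ 0) {x y : ℂ} (h : ev H x y = 0)
    (hy : Transcendental ℤ y) : 0 < H.degreeOf 0 := by
  rcases Nat.eq_zero_or_pos (H.degreeOf 0) with h0 | h0
  swap
  · exact h0
  exfalso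
  obtain ⟨D, rfl⟩ := exists_of_degree h0
  rw [ev_aeval₁] at h
  have := (transcendental_iff.1 hy) D h
  rw [this, map_zero] at hH
  exact hH rfl

lemma dvd_of_transcendental {H : MvPolynomial (Fin 2) ℤ} (hH : Irreducible H) {x y : ℂ}
    (h : ev H x y = 0) (hy : Transcendental ℤ y) (G : MvPolynomial (Fin 2) ℤ) (hG : ev G x y = 0) :
    H ∣ G := by
  classical
  by_contra hcon
  have h1 : Irreducible (finSuccEquiv ℤ 1 H) :=
    (MulEquiv.irreducible_iff (finSuccEquiv ℤ 1).toMulEquiv).2 hH
  have h2 : (finSuccEquiv ℤ 1 H).natDegree ≠ 0 := by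
    rw [natDegree_finSuccEquiv]
    exact (degree_pos hH.ne_zero h hy).ne'
  have h3 : ¬ finSuccEquiv ℤ 1 H ∣ finSuccEquiv ℤ 1 G := by
    rintro ⟨Q, hQ⟩
    apply hcon
    refine ⟨(finSuccEquiv ℤ 1).symm Q, ?_⟩
    apply (finSuccEquiv ℤ 1).injective
    rw [map_mul, AlgEquiv.apply_symm_apply, hQ]
  obtain ⟨A, B, d, hd, h4⟩ := exists_bezout' h1 h2 h3
  obtain ⟨A', B', h5⟩ : ∃ A' B' : MvPolynomial (Fin 2) ℤ, A' * H + B' * G =
      Polynomial.aeval (X 1 : MvPolynomial (Fin 2) ℤ)
        (aeval (fun _ => (Polynomial.X : Polynomial ℤ)) d) := by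
    refine ⟨(finSuccEquiv ℤ 1).symm A, (finSuccEquiv ℤ 1).symm B, ?_⟩
    rw [← rename_eq_aeval, ← symm_C, ← h4, map_add, map_mul, map_mul, AlgEquiv.symm_apply_apply,
      AlgEquiv.symm_apply_apply]
  have h6 := congrArg (fun F => ev F x y) h5
  simp only [ev_add, ev_mul, h, hG, mul_zero, add_zero, ev_aeval₁] at h6
  have h7 := (transcendental_iff.1 hy) _ h6.symm
  have h8 := rename_eq_aeval d
  rw [h7, map_zero] at h8
  exact hd (rename_injective _ (Fin.succ_injective 1) (by rw [h8, map_zero]))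

/-- **(K)** an irreducible relation divides every relation, at all its points with a transcendental
coordinate -/
theorem dvd_of_irreducible {H : MvPolynomial (Fin 2) ℤ} (hH : Irreducible H) {x y : ℂ}
    (h : ev H x y = 0) (ht : Transcendental ℤ x ∨ Transcendental ℤ y)
    (G : MvPolynomial (Fin 2) ℤ) (hG : ev G x y = 0) : H ∣ G := by
  rcases ht with hx | hy
  · have h1 : Irreducible (swapV H) := (MulEquiv.irreducible_iff swapV.toMulEquiv).2 hH
    obtain ⟨Q, hQ⟩ := dvd_of_transcendental h1 (x := y) (y := x) (by rw [ev_swapV]; exact h) hx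
      (swapV G) (by rw [ev_swapV]; exact hG)
    refine ⟨swapV Q, ?_⟩
    have := congrArg swapV hQ
    rwa [map_mul, swapV_swapV, swapV_swapV] at this
  · exact dvd_of_transcendental hH h hy G hG

/-- **the irreducible relation** of two transcendental numbers which are algebraically dependent -/
theorem exists_irreducible {x y : ℂ} (hx : Transcendental ℤ x) (hy : Transcendental ℤ y)
    {G : MvPolynomial (Fin 2) ℤ} (hG0 : G ≠ 0) (hG : ev G x y = 0) :
    ∃ H : MvPolynomial (Fin 2) ℤ, Irreducible H ∧ 0 < H.degreeOf 0 ∧ 0 < H.degreeOf 1 ∧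
      ev H x y = 0 := by
  classical
  have key : ∀ G : MvPolynomial (Fin 2) ℤ, G ≠ 0 → ev G x y = 0 →
      ∃ H, Irreducible H ∧ ev H x y = 0 := by
    intro G
    induction G using WfDvdMonoid.induction_on_irreducible with
    | zero => exact fun h => absurd rfl h
    | unit u hu =>
      intro _ h
      exfalso
      obtain ⟨w, hw⟩ := hu.exists_right_inv
      have h1 := congrArg (fun F => ev F x y) hw
      simp only [ev_mul, h, zero_mul] at h1
      rw [ev_eq_aeval, map_one] at h1
      exact zero_ne_one h1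
    | mul a i ha hi ih =>
      intro _ h
      rw [ev_mul] at h
      rcases mul_eq_zero.1 h with h | h
      · exact ⟨i, hi, h⟩
      · exact ih ha h
  obtain ⟨H, h1, h2⟩ := key G hG0 hG
  refine ⟨H, h1, degree_pos h1.ne_zero h2 hy, ?_, h2⟩
  have h3 : swapV H ≠ 0 := fun h => h1.ne_zero (by rw [← swapV_swapV H, h, map_zero])
  have h4 := degree_pos h3 (x := y) (y := x) (by rw [ev_swapV]; exact h2) hx
  have := degreeOf_rename_of_injective (p := H) (Equiv.swap (0 : Fin 2) 1).injective 1
  rw [Equiv.swap_apply_right] at this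
  have h5 : (swapV H).degreeOf 0 = H.degreeOf 1 := this
  rwa [h5] at h4

end Pool.Agent.Helper22.DL
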