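import Pool.Agent.Helper22.DL.CaseAB

/-! # Sharp rigidity: isogenous numbers of the same absolute value -/

open UpperHalfPlane ModularForm Complex Filter Function
open scoped Real MatrixGroups Topology Manifold

namespace Pool.Agent.Helper22.DL
open Pool.Agent.Helper11.ZP Pool.Agent.Helper11.ZU Pool.Agent.Helper20.ZT Pool.Agent.Helper20.ZT.Prim
  Pool.Agent.Helper20.ZD

variable {v : AbsoluteValue ℂ ℝ}

section core
variable {m : ℤ} [hm : Fact (0 < m)] {T : Finset (Orb m)} (hT : Stable m T)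
variable {K : Type*} [Field K] [Algebra ℂ K] (O : ValuationSubring K)

/-- **sharp rigidity over the orbits in `T`**: points of the same absolute value -/
theorem rig_coreS [IsAlgClosed K] {x y : K} (hx : x ∉ O) (hy : y ∉ O)
    (hxy : O.valuation x = O.valuation y)
    (hrel : ∑ i ∈ Finset.range (T.card + 1), (ppT hT i).eval₂ (ph K) x * y ^ i = 0) :
    ∃ o ∈ T, ko m o = m.toNat ∧ x * ((y - 744) - (ph K (zo m o))⁻¹ * (x - 744)) ∈ O := by
  have hx0 : x ≠ 0 := by rintro rfl; exact hx (zero_mem O)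
  have hy0 : y ≠ 0 := by rintro rfl; exact hy (zero_mem O)
  set s := x⁻¹ with hs
  set w := y⁻¹ with hw
  have hs0 : s ≠ 0 := inv_ne_zero hx0
  have hw0 : w ≠ 0 := inv_ne_zero hy0
  have vw : O.valuation w = O.valuation s := by rw [hs, hw, map_inv₀, map_inv₀, hxy]
  have vs1 : O.valuation s < 1 := by
    rw [hs, map_inv₀]
    exact inv_lt_one_of_one_lt₀ (not_le.1 fun h => hx ((val_mem O).2 h))
  have hm' := mtoNat_pos m
  set n := m.toNat with hn
  set L := n ^ 2 + 3 * n with hL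
  obtain ⟨q, hq, hqe⟩ := exists_param O (T.card * L) ((val_non O).2 vs1) hs0
  have vq1 := (val_non O).1 hq
  have hqO : q ∈ O := (val_mem O).2 vq1.le
  obtain ⟨e, he, hE⟩ := tr_E O (T.card * L) hqO
  obtain ⟨d, hd, hD⟩ := tr_D O (T.card * L) hqO
  have m24 : (24 : K) ∈ O := by exact_mod_cast mem_ofNat O 24
  have m720 : (720 : K) ∈ O := by exact_mod_cast mem_ofNat O 720
  have m744 : (744 : K) ∈ O := by exact_mod_cast mem_ofNat O 744
  -- units
  have uE : ∀ r e : K, O.valuation r < 1 → e ∈ O → O.valuation (1 + 720 * r + r ^ 2 * e) = 1 := by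
    intro r e hr he
    have hrO : r ∈ O := (val_mem O).2 hr.le
    rw [show 1 + 720 * r + r ^ 2 * e = 1 + r * (720 + r * e) by ring]
    exact unit_of_sub O (lt_one_mul O hr (mem_add O m720 (mem_mul O hrO he)))
  have uD : ∀ r e : K, O.valuation r < 1 → e ∈ O → O.valuation (1 - 24 * r + r ^ 2 * e) = 1 := by
    intro r e hr he
    have hrO : r ∈ O := (val_mem O).2 hr.le
    rw [show 1 - 24 * r + r ^ 2 * e = 1 + r * (r * e - 24) by ring]
    exact unit_of_sub O (lt_one_mul O hr (mem_sub O (mem_mul O hrO he) m24))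
  have vE := uE q e vq1 he
  have vD := uD q d vq1 hd
  rw [hE, hD] at hqe
  have vq : O.valuation q = O.valuation s := by
    have h1 : q * (1 - 24 * q + q ^ 2 * d) = s * (1 + 720 * q + q ^ 2 * e) := by rw [← hqe]; ring
    have h2 := congrArg O.valuation h1
    rwa [val_mul_unit O vD, val_mul_unit O vE] at h2
  have vp0 : O.valuation s ≠ 0 := by rwa [ne_eq, Valuation.zero_iff]
  have hq0 : q ≠ 0 := by
    intro h
    rw [h, map_zero] at vq
    exact vp0 vq.symm
  obtain ⟨t, ht⟩ := IsAlgClosed.exists_pow_nat_eq q hm'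
  have ht0 : t ≠ 0 := by
    rintro rfl
    rw [zero_pow hm'.ne'] at ht
    exact hq0 ht.symm
  have vt1 : O.valuation t < 1 := by
    by_contra hcon
    push Not at hcon
    have h1 : 1 ≤ O.valuation t ^ n := one_le_pow₀ hcon
    rw [← map_pow, ht] at h1
    exact absurd vq1 (not_lt.2 h1)
  have vt0 : 0 < O.valuation t := zero_lt_iff.2 (by rwa [ne_eq, Valuation.zero_iff])
  have htO : t ∈ O := (val_mem O).2 vt1.le
  have hwO : w ∈ O := (val_mem O).2 (by rw [vw]; exact vs1.le)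
  -- the product
  have hLz : (LHT hT (T.card * L + 3)).eval₂ (Polynomial.eval₂RingHom (ph K) t) w⁻¹ = 0 := by
    apply LHT_zero hT (T.card * L + 3) (x := x)
    · rw [ht, hE, hD, hqe, hs]
      field_simp
    · rw [hw, inv_inv]; exact hrel
  have hsm := small_prodT hT O (T.card * L + 3) htO hwO hw0 hLz
  have hmono : ∀ {a b : ℕ}, a ≤ b → O.valuation t ^ b ≤ O.valuation t ^ a := fun h =>
    pow_le_pow_right_of_le_one' vt1.le h
  have hex : ∃ o ∈ T, O.valuation ((tr dS qexp_disc_mem 1 1 (T.card * L + 3)).eval₂ (ph K)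
      (ph K (zo m o) * t ^ ko m o) - (tr eS qexp_Ecube_mem 1 1 (T.card * L + 3)).eval₂ (ph K)
      (ph K (zo m o) * t ^ ko m o) * w) ≤ O.valuation t ^ L := by
    by_contra hcon
    push Not at hcon
    rcases T.eq_empty_or_nonempty with hem | hne
    · rw [hem, Finset.prod_empty, map_one] at hsm
      exact absurd (pow_lt_one₀ zero_le vt1 (by omega)) (not_lt.2 hsm)
    · have h1 := val_prod T _ (pow_pos vt0 L) hne (fun o ho => hcon o ho)
      rw [← map_prod, ← pow_mul, mul_comm] at h1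
      exact absurd (hsm.trans (hmono (Nat.le_add_right _ _))) (not_le.2 h1)
  obtain ⟨o, hoT, ho⟩ := hex
  set z := ph K (zo m o) with hz
  set k := ko m o with hk
  set r := z * t ^ k with hr
  have hkpos : 0 < k := ko_pos m o
  obtain ⟨N, hN, hzN⟩ := zo_pow m o
  have hzN' : z ^ N = 1 := by rw [hz, ← map_pow, hzN, map_one]
  have vz : O.valuation z = 1 := val_root_one O hN hzN'
  have hz0 : z ≠ 0 := by
    intro h
    rw [h, map_zero] at vz
    exact zero_ne_one vz
  have hzO : z ∈ O := (val_mem O).2 vz.le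
  have vr : O.valuation r = O.valuation t ^ k := by rw [hr, map_mul, vz, one_mul, map_pow]
  have vr1 : O.valuation r < 1 := by rw [vr]; exact pow_lt_one₀ zero_le vt1 hkpos.ne'
  have hrO : r ∈ O := (val_mem O).2 vr1.le
  obtain ⟨e', he', hE'⟩ := tr_E O (T.card * L) hrO
  obtain ⟨d', hd', hD'⟩ := tr_D O (T.card * L) hrO
  have vE' := uE r e' vr1 he'
  have vD' := uD r d' vr1 hd'
  rw [hE', hD'] at ho
  set ε := (r - 24 * r ^ 2 + r ^ 3 * d') - (1 + 720 * r + r ^ 2 * e') * w with hε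
  have hkL : k < L := by
    have h1 := ko_le m o
    rw [← hn, ← hk] at h1
    rw [hL]; omega
  have hlt : O.valuation ε < O.valuation r := by
    rw [vr]
    refine lt_of_le_of_lt ho ?_
    exact pow_lt_pow_right_of_lt_one₀ vt0 vt1 hkL
  have vDr : O.valuation (r - 24 * r ^ 2 + r ^ 3 * d') = O.valuation r := by
    rw [show r - 24 * r ^ 2 + r ^ 3 * d' = r * (1 - 24 * r + r ^ 2 * d') by ring, val_mul_unit O vD']
  have vw2 : O.valuation w = O.valuation r := by
    have h1 : w * (1 + 720 * r + r ^ 2 * e') = (r - 24 * r ^ 2 + r ^ 3 * d') + (-ε) := by rw [hε]; ring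
    have h2 := congrArg O.valuation h1
    rwa [val_mul_unit O vE', val_add_of_lt O (by rwa [Valuation.map_neg, vDr]), vDr] at h2
  have hkn : k = n := by
    have h1 : O.valuation t ^ k = O.valuation t ^ n := by
      rw [← vr, ← vw2, vw, ← vq, ← ht, map_pow]
    by_contra hne
    rcases lt_or_gt_of_ne hne with h | h
    · exact absurd h1 (ne_of_gt (pow_lt_pow_right_of_lt_one₀ vt0 vt1 h))
    · exact absurd h1 (ne_of_lt (pow_lt_pow_right_of_lt_one₀ vt0 vt1 h))
  have hrq : r = z * q := by rw [hr, hkn, ht]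
  -- the error
  have hεO : ε / q ^ 3 ∈ O := by
    rw [val_mem, map_div₀, map_pow]
    have h1 : O.valuation q ^ 3 = O.valuation t ^ (3 * n) := by rw [← ht, map_pow, ← pow_mul, mul_comm]
    rw [h1]
    have h2 : O.valuation ε ≤ O.valuation t ^ (3 * n) := ho.trans (hmono (by rw [hL]; omega))
    exact div_le_one_of_le₀ h2 zero_le
  set β := ε / q ^ 3 with hβ
  have hεβ : ε = q ^ 3 * β := by rw [hβ]; field_simp
  have hdiv : ∀ a b : K, a ∈ O → O.valuation b = 1 → a / b ∈ O := by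
    intro a b ha hb
    rw [val_mem, map_div₀, hb, div_one]
    exact (val_mem O).1 ha
  -- x
  have hDne : (1 - 24 * q + q ^ 2 * d) ≠ 0 := by
    intro h; rw [h, map_zero] at vD; exact zero_ne_one vD
  have hEne : (1 + 720 * q + q ^ 2 * e) ≠ 0 := by
    intro h; rw [h, map_zero] at vE; exact zero_ne_one vE
  have hxq : x * (q * (1 - 24 * q + q ^ 2 * d)) = 1 + 720 * q + q ^ 2 * e := by
    rw [show q * (1 - 24 * q + q ^ 2 * d) = q - 24 * q ^ 2 + q ^ 3 * d by ring, hqe, hs]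
    field_simp
  set α := (e - d + 744 * 24 - 744 * q * d) / (1 - 24 * q + q ^ 2 * d) with hα
  have hαO : α ∈ O := hdiv _ _ (mem_sub O (mem_add O (mem_sub O he hd) (mem_mul O m744 m24))
    (mem_mul O (mem_mul O m744 hqO) hd)) vD
  have hx1 : x - 744 = 1 / q + q * α := by
    have hne : q * (1 - 24 * q + q ^ 2 * d) ≠ 0 := mul_ne_zero hq0 hDne
    have hαD : α * (1 - 24 * q + q ^ 2 * d) = e - d + 744 * 24 - 744 * q * d := div_mul_cancel₀ _ hDne
    have hq1 : 1 / q * q = 1 := div_mul_cancel₀ _ hq0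
    apply mul_right_cancel₀ hne
    rw [sub_mul, hxq]
    linear_combination (-(1 - 24 * q + q ^ 2 * d)) * hq1 - q ^ 2 * hαD
  -- y
  have vDz : O.valuation (z * (1 - 24 * r + r ^ 2 * d') - q ^ 2 * β) = 1 := by
    have h1 : O.valuation (z * (1 - 24 * r + r ^ 2 * d')) = 1 := by rw [val_mul_unit O vD', vz]
    rw [sub_eq_add_neg, val_add_of_lt O, h1]
    rw [h1, Valuation.map_neg]
    rw [show q ^ 2 * β = q * (q * β) by ring]
    exact lt_one_mul O vq1 (mem_mul O hqO hεO)
  have hDzne : (z * (1 - 24 * r + r ^ 2 * d') - q ^ 2 * β) ≠ 0 := by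
    intro h; rw [h, map_zero] at vDz; exact zero_ne_one vDz
  have hyq : y * (q * (z * (1 - 24 * r + r ^ 2 * d') - q ^ 2 * β)) = 1 + 720 * r + r ^ 2 * e' := by
    have h1 : (1 + 720 * r + r ^ 2 * e') * w = q * (z * (1 - 24 * r + r ^ 2 * d') - q ^ 2 * β) := by
      have h2 : (1 + 720 * r + r ^ 2 * e') * w = (r - 24 * r ^ 2 + r ^ 3 * d') - q ^ 3 * β := by
        rw [← hεβ, hε]; ring
      rw [h2]
      linear_combination (1 - 24 * r + r ^ 2 * d') * hrq
    rw [← h1, hw]
    field_simp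
  set γ := (z ^ 3 * (e' - d' + 744 * 24 - 744 * r * d') + (1 + 744 * r) * β) /
    (z * (z * (1 - 24 * r + r ^ 2 * d') - q ^ 2 * β)) with hγ
  have hγO : γ ∈ O := by
    refine hdiv _ _ (mem_add O (mem_mul O (mem_pow O hzO _) (mem_sub O (mem_add O (mem_sub O he' hd')
      (mem_mul O m744 m24)) (mem_mul O (mem_mul O m744 hrO) hd'))) (mem_mul O (mem_add O (one_mem O)
      (mem_mul O m744 hrO)) hεO)) ?_
    rw [map_mul, vz, vDz, one_mul]
  have hy1 : y - 744 = 1 / (z * q) + q * γ := by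
    have hne : z * (q * (z * (1 - 24 * r + r ^ 2 * d') - q ^ 2 * β)) ≠ 0 :=
      mul_ne_zero hz0 (mul_ne_zero hq0 hDzne)
    have hγD : γ * (z * (z * (1 - 24 * r + r ^ 2 * d') - q ^ 2 * β)) =
        z ^ 3 * (e' - d' + 744 * 24 - 744 * r * d') + (1 + 744 * r) * β :=
      div_mul_cancel₀ _ (mul_ne_zero hz0 hDzne)
    have hq1 : 1 / (z * q) * (z * q) = 1 := div_mul_cancel₀ _ (mul_ne_zero hz0 hq0)
    apply mul_right_cancel₀ hne
    linear_combination z * hyq - (z * (1 - 24 * r + r ^ 2 * d') - q ^ 2 * β) * hq1 - q ^ 2 * hγD +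
      (744 * (z * (1 - 24 * r + r ^ 2 * d') - q ^ 2 * β) +
        z * (r + z * q) * (e' - d' + 744 * 24 - 744 * r * d')) * hrq
  refine ⟨o, hoT, by rw [← hk, hkn], ?_⟩
  have hxqO : x * q ∈ O := by
    rw [val_mem, map_mul, vq, hs, map_inv₀, mul_inv_cancel₀]
    rwa [ne_eq, Valuation.zero_iff]
  have h1 : x * ((y - 744) - z⁻¹ * (x - 744)) = (x * q) * (γ - z⁻¹ * α) := by
    rw [hx1, hy1]
    field_simp
    ring
  rw [← hz, h1]
  refine mem_mul O hxqO (mem_sub O hγO (mem_mul O ?_ hαO))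
  rw [val_mem, map_inv₀, vz, inv_one]

end core

/-- numbers of the same absolute value have the same valuation -/
lemma val_eq {v : AbsoluteValue ℂ ℝ} (hv : IsNonarchimedean v) {x y : ℂ} (hx : x ≠ 0) (hxy : v x = v y) :
    (vring v hv).valuation x = (vring v hv).valuation y := by
  have hx0 : v x ≠ 0 := (AbsoluteValue.ne_zero_iff v).2 hx
  have hy : y ≠ 0 := (AbsoluteValue.ne_zero_iff v).1 (by rwa [← hxy])
  have key : ∀ {a b : ℂ}, b ≠ 0 → v a = v b → (vring v hv).valuation a ≤ (vring v hv).valuation b := by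
    intro a b hb hab
    have h1 : (vring v hv).valuation (a / b) ≤ 1 := by
      rw [← val_mem, mem_vring, map_div₀, hab, div_self ((AbsoluteValue.ne_zero_iff v).2 hb)]
    calc (vring v hv).valuation a = (vring v hv).valuation (a / b) * (vring v hv).valuation b := by
          rw [← map_mul, div_mul_cancel₀ _ hb]
      _ ≤ 1 * (vring v hv).valuation b := mul_le_mul_left h1 _
      _ = _ := one_mul _
  exact le_antisymm (key hy hxy) (key hx hxy.symm)

lemma v_ofNat_le (hv : IsNonarchimedean v) (k : ℕ) : v (k : ℂ) ≤ 1 := by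
  have : ((k : ℕ) : ℂ) ∈ vring v hv := mem_ofNat _ k
  exact mem_vring.1 this

/-- **sharp rigidity**: two isogenous numbers of the same absolute value `> 1` -/
theorem sharp_rigid (hv : IsNonarchimedean v) {x y : ℂ} (hx : 1 < v x)
    (hxy : v x = v y) {N : ℕ} (hN : 0 < N) (h : CyclicIsog N x y) :
    ∃ (g : ℕ) (ζ : ℂ), 0 < g ∧ N = g ^ 2 ∧ IsPrimitiveRoot ζ g ∧
      v ((x - 744) / (y - 744) - ζ) ≤ ((v x)⁻¹) ^ 2 := by
  have hm : Fact (0 < (N : ℤ)) := ⟨by exact_mod_cast hN⟩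
  have hxO : x ∉ vring v hv := fun h => absurd (mem_vring.1 h) (not_le.2 hx)
  have hyO : y ∉ vring v hv := fun h => absurd (mem_vring.1 h) (by rw [← hxy]; exact not_le.2 hx)
  have hx00 : 0 < v x := zero_lt_one.trans hx
  have hx0 : x ≠ 0 := (AbsoluteValue.pos_iff v).1 hx00
  have hrel := primPoly_sum (K := ℂ) (N : ℤ) ((cyclicIsog_iff hN).1 h)
  obtain ⟨o, ho, hk, h1⟩ := rig_coreS (TP_stable (N : ℤ)) (vring v hv) hxO hyO (val_eq hv hx0 hxy) hrel
  obtain ⟨g, hg, hgN, hroot⟩ := TP_root (N : ℤ) ho hk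
  have e1 : ph ℂ (zo (N : ℤ) o) = ((zo (N : ℤ) o : OO) : ℂ) := rfl
  rw [e1, mem_vring, map_mul] at h1
  set ζ := ((zo (N : ℤ) o : OO) : ℂ) with hζ
  have vζ : v ζ = 1 := by
    have h2 : v ζ ^ g = 1 := by rw [← map_pow, hroot.pow_eq_one, map_one]
    exact (pow_eq_one_iff_of_nonneg (AbsoluteValue.nonneg v _) hg.ne').1 h2
  have hζ0 : ζ ≠ 0 := (AbsoluteValue.ne_zero_iff v).1 (by rw [vζ]; exact one_ne_zero)
  have v744 : v (744 : ℂ) ≤ 1 := by exact_mod_cast v_ofNat_le hv 744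
  have hvy : v (y - 744) = v x := by
    rw [sub_eq_add_neg, v_add_eq hv (by rw [v_neg, ← hxy]; exact v744.trans_lt hx), hxy]
  have hy7 : y - 744 ≠ 0 := (AbsoluteValue.pos_iff v).1 (by rw [hvy]; exact hx00)
  refine ⟨g, ζ, hg, by exact_mod_cast hgN.symm, hroot, ?_⟩
  have h2 : (x - 744) / (y - 744) - ζ = -(ζ * (((y - 744) - ζ⁻¹ * (x - 744)) / (y - 744))) := by
    field_simp
    ring
  rw [h2, v_neg, map_mul, vζ, one_mul, map_div₀, hvy, div_le_iff₀ hx00]
  have h3 : v ((y - 744) - ζ⁻¹ * (x - 744)) ≤ (v x)⁻¹ := by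
    refine (le_inv_mul_iff₀ hx00).2 h1 |>.trans_eq ?_
    rw [mul_one]
  calc _ ≤ (v x)⁻¹ := h3
    _ = (v x)⁻¹ ^ 2 * v x := by field_simp

end Pool.Agent.Helper22.DL
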