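import Pool.Agent.Helper36.DL.Unif
import Pool.Agent.Helper69.DL.Gap

/-! # The closure of the integers in `(ℂ, v)` -/

open MvPolynomial

namespace Pool.Agent.Helper22.DL
open Pool.Agent.Helper20.ZD Pool.Agent.Helper36.DL

variable {v : AbsoluteValue ℂ ℝ} {p : ℕ}

lemma zp_le (hv : IsNonarchimedean v) {x : ℂ} (hx : Zp v p x) : v x ≤ 1 := by
  obtain ⟨q, hq⟩ := hx 0
  rw [pow_zero] at hq
  rw [show x = (x - q) + q by ring]
  exact (hv _ _).trans (max_le hq hv.apply_intCast_le_one)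

lemma zp_int (q : ℤ) : Zp v p (q : ℂ) := fun k =>
  ⟨q, by rw [sub_self, map_zero]; exact pow_nonneg (AbsoluteValue.nonneg v _) _⟩

lemma zp_neg {x : ℂ} (hx : Zp v p x) : Zp v p (-x) := fun k => by
  obtain ⟨q, hq⟩ := hx k
  refine ⟨-q, ?_⟩
  rw [show -x - ((-q : ℤ) : ℂ) = -(x - q) by push_cast; ring, v_neg]
  exact hq

lemma zp_add (hv : IsNonarchimedean v) {x y : ℂ} (hx : Zp v p x) (hy : Zp v p y) : Zp v p (x + y) := fun k => by
  obtain ⟨q, hq⟩ := hx k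
  obtain ⟨r, hr⟩ := hy k
  refine ⟨q + r, ?_⟩
  rw [show x + y - ((q + r : ℤ) : ℂ) = (x - q) + (y - r) by push_cast; ring]
  exact (hv _ _).trans (max_le hq hr)

lemma zp_mul (hv : IsNonarchimedean v) {x y : ℂ} (hx : Zp v p x) (hy : Zp v p y) : Zp v p (x * y) := fun k => by
  obtain ⟨q, hq⟩ := hx k
  obtain ⟨r, hr⟩ := hy k
  refine ⟨q * r, ?_⟩
  rw [show x * y - ((q * r : ℤ) : ℂ) = (x - q) * y + q * (y - r) by push_cast; ring]
  refine (hv _ _).trans (max_le ?_ ?_)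
  · rw [map_mul]
    exact (mul_le_of_le_one_right (AbsoluteValue.nonneg v _) (zp_le hv hy)).trans hq
  · rw [map_mul]
    exact (mul_le_of_le_one_left (AbsoluteValue.nonneg v _) hv.apply_intCast_le_one).trans hr

lemma zp_pow (hv : IsNonarchimedean v) {x : ℂ} (hx : Zp v p x) (k : ℕ) : Zp v p (x ^ k) := by
  induction k with
  | zero =>
    rw [pow_zero]
    exact_mod_cast zp_int 1
  | succ k ih => rw [pow_succ]; exact zp_mul hv ih hx

lemma zp_p : Zp v p (p : ℂ) := by exact_mod_cast zp_int (p : ℤ)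

/-- the inverse of a unit -/
lemma zp_inv (hv : IsNonarchimedean v) (hp : p.Prime) (hvp : v (p : ℂ) < 1) {x : ℂ} (hx : Zp v p x)
    (h1 : v x = 1) : Zp v p x⁻¹ := by
  intro k
  have hvp0 : 0 ≤ v (p : ℂ) := AbsoluteValue.nonneg v _
  have hx0 : x ≠ 0 := (AbsoluteValue.ne_zero_iff v).1 (by rw [h1]; exact one_ne_zero)
  obtain ⟨q, hq⟩ := hx (k + 1)
  have hlt : v (x - q) < 1 := by
    refine lt_of_le_of_lt hq ?_
    rw [pow_succ]
    exact mul_lt_one_of_nonneg_of_lt_one_right (pow_le_one₀ hvp0 hvp.le) hvp0 hvp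
  have hvq : v (q : ℂ) = 1 := by
    rw [show (q : ℂ) = x + (-(x - q)) by ring, v_add_eq hv (by rw [v_neg, h1]; exact hlt), h1]
  have hpq : ¬ (p : ℤ) ∣ q := fun h => by
    have := (Pool.Agent.Helper69.DL.v_int_lt_iff hv hp hvp).2 h
    rw [hvq] at this
    exact lt_irrefl _ this
  have hco : IsCoprime ((p : ℤ) ^ k) q := by
    refine IsCoprime.pow_left ?_
    exact (Prime.coprime_iff_not_dvd (Nat.prime_iff_prime_int.1 hp)).2 hpq
  obtain ⟨a, b, hab⟩ := hco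
  refine ⟨b, ?_⟩
  have h2 : (a : ℂ) * (p : ℂ) ^ k + b * q = 1 := by exact_mod_cast hab
  have h3 : x⁻¹ - b = x⁻¹ * (a * (p : ℂ) ^ k - b * (x - q)) := by
    field_simp
    linear_combination -h2
  rw [h3, map_mul, map_inv₀, h1, inv_one, one_mul]
  refine (v_sub_le hv _ _).trans (max_le ?_ ?_)
  · rw [map_mul, map_pow]
    exact mul_le_of_le_one_left (pow_nonneg hvp0 _) hv.apply_intCast_le_one
  · rw [map_mul]
    refine (mul_le_of_le_one_left (AbsoluteValue.nonneg v _) hv.apply_intCast_le_one).trans (hq.trans ?_)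
    exact pow_le_pow_of_le_one hvp0 hvp.le (Nat.le_succ k)

/-- division by `p` -/
lemma zp_div_p (hv : IsNonarchimedean v) (hp : p.Prime) (hvp : v (p : ℂ) < 1) {x : ℂ} (hx : Zp v p x)
    (h1 : v x ≤ v (p : ℂ)) : Zp v p (x / p) := by
  intro k
  have hpC : (p : ℂ) ≠ 0 := by exact_mod_cast hp.ne_zero
  have hvp0 : 0 < v (p : ℂ) := (AbsoluteValue.pos_iff v).2 hpC
  obtain ⟨q, hq⟩ := hx (k + 1)
  have hqk : v (p : ℂ) ^ (k + 1) ≤ v (p : ℂ) := by
    rw [pow_succ]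
    exact mul_le_of_le_one_left hvp0.le (pow_le_one₀ hvp0.le hvp.le)
  have hvq : v (q : ℂ) < 1 := by
    rw [show (q : ℂ) = x - (x - q) by ring]
    exact lt_of_le_of_lt ((v_sub_le hv _ _).trans (max_le h1 (hq.trans hqk))) hvp
  obtain ⟨r, rfl⟩ := (Pool.Agent.Helper69.DL.v_int_lt_iff hv hp hvp).1 hvq
  refine ⟨r, ?_⟩
  rw [show x / p - (r : ℂ) = (x - ((p * r : ℤ) : ℂ)) / p by push_cast; field_simp, map_div₀,
    div_le_iff₀ hvp0, ← pow_succ]
  exact hq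

/-- the class modulo `p` -/
lemma zp_mod (hv : IsNonarchimedean v) (hp : p.Prime) {x : ℂ} (hx : Zp v p x) :
    ∃ r ∈ Finset.range p, v (x - (r : ℕ)) ≤ v (p : ℂ) := by
  obtain ⟨q, hq⟩ := hx 1
  rw [pow_one] at hq
  have hp0 : (p : ℤ) ≠ 0 := by exact_mod_cast hp.ne_zero
  refine ⟨(q % p).toNat, ?_, ?_⟩
  · rw [Finset.mem_range, Int.toNat_lt (Int.emod_nonneg _ hp0)]
    exact Int.emod_lt_of_pos _ (by exact_mod_cast hp.pos)
  · have h1 : (((q % p).toNat : ℕ) : ℤ) = q % p := Int.toNat_of_nonneg (Int.emod_nonneg _ hp0)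
    have h2 : (((q % p).toNat : ℕ) : ℂ) = ((q % p : ℤ) : ℂ) := by exact_mod_cast h1
    have h3 : ((q : ℤ) : ℂ) = ((q % p : ℤ) : ℂ) + p * ((q / p : ℤ) : ℂ) := by
      exact_mod_cast (Int.emod_add_mul_ediv q p).symm
    rw [h2, show x - ((q % p : ℤ) : ℂ) = (x - q) + p * ((q / p : ℤ) : ℂ) by rw [h3]; ring]
    refine (hv _ _).trans (max_le hq ?_)
    rw [map_mul]
    exact mul_le_of_le_one_right (AbsoluteValue.nonneg v _) hv.apply_intCast_le_one

end Pool.Agent.Helper22.DL
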